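import Mathlib

/-!
Power series of `(π/3) / sin (π (1 - X) / 3)` from the Mittag-Leffler expansion of the cotangent.
-/

set_option autoImplicit false

namespace Pool.Agent.H43.DD

open Finset Complex

/-- Coefficients of `1/(a+1-X) - 1/(a-1+X)`. -/
noncomputable def gc (a : ℝ) (k : ℕ) : ℝ := (1 / (a + 1)) ^ (k + 1) - (-1) ^ k * (1 / (a - 1)) ^ (k + 1)

theorem hasSum_gc {a : ℝ} (ha : 3 ≤ a) {X : ℂ} (hX : ‖X‖ ≤ 1 / 2) :
    HasSum (fun k => (gc a k : ℂ) * X ^ k) (1 / ((a : ℂ) + 1 - X) - 1 / ((a : ℂ) - 1 + X)) := by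
  have h1 : HasSum (fun k : ℕ => (X / ((a : ℂ) + 1)) ^ k) (1 - X / ((a : ℂ) + 1))⁻¹ := by
    apply hasSum_geometric_of_norm_lt_one
    rw [norm_div]
    have : ‖(a : ℂ) + 1‖ = a + 1 := by
      rw [show (a : ℂ) + 1 = ((a + 1 : ℝ) : ℂ) by push_cast; ring, Complex.norm_real,
        Real.norm_of_nonneg (by linarith)]
    rw [this, div_lt_one (by linarith)]
    linarith
  have h2 : HasSum (fun k : ℕ => (-X / ((a : ℂ) - 1)) ^ k) (1 - -X / ((a : ℂ) - 1))⁻¹ := by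
    apply hasSum_geometric_of_norm_lt_one
    rw [norm_div, norm_neg]
    have : ‖(a : ℂ) - 1‖ = a - 1 := by
      rw [show (a : ℂ) - 1 = ((a - 1 : ℝ) : ℂ) by push_cast; ring, Complex.norm_real,
        Real.norm_of_nonneg (by linarith)]
    rw [this, div_lt_one (by linarith)]
    linarith
  have ha1 : (a : ℂ) + 1 ≠ 0 := by
    rw [show (a : ℂ) + 1 = ((a + 1 : ℝ) : ℂ) by push_cast; ring]
    exact_mod_cast (show (a + 1 : ℝ) ≠ 0 by linarith)
  have ha2 : (a : ℂ) - 1 ≠ 0 := by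
    rw [show (a : ℂ) - 1 = ((a - 1 : ℝ) : ℂ) by push_cast; ring]
    exact_mod_cast (show (a - 1 : ℝ) ≠ 0 by linarith)
  have h3 := (h1.mul_left (1 / ((a : ℂ) + 1))).sub (h2.mul_left (1 / ((a : ℂ) - 1)))
  convert! h3 using 1
  · funext k
    unfold gc
    push_cast
    rw [show (-X / ((a : ℂ) - 1)) ^ k = (-1) ^ k * X ^ k / ((a : ℂ) - 1) ^ k by
      rw [div_pow, neg_pow], div_pow X]
    simp only [one_div, inv_pow, pow_succ]
    ring
  · congr 1
    · field_simp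
    · field_simp
      ring

theorem abs_gc_le {a s : ℝ} (hs : 2 ≤ s) (ha : s + 1 ≤ a) (k : ℕ) :
    |gc a k| ≤ 2 * s / (a - 1) ^ 2 * (1 / s) ^ k := by
  have h0 : 0 < a - 1 := by linarith
  have h0' : 0 < a + 1 := by linarith
  have hs0 : 0 < s := by linarith
  rcases k with _ | k
  · unfold gc
    simp only [zero_add, pow_one, pow_zero, one_mul, mul_one]
    rw [show 1 / (a + 1) - 1 / (a - 1) = -(2 / ((a + 1) * (a - 1))) by
      have := h0.ne'
      have := h0'.ne'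
      rw [div_sub_div _ _ (by assumption) (by assumption), ← neg_div]
      congr 1; ring, abs_neg, abs_of_nonneg (by positivity)]
    rw [div_le_div_iff₀ (by positivity) (by positivity)]
    have : (a - 1) ≤ (a + 1) := by linarith
    have h1 : (a - 1) ^ 2 ≤ (a + 1) * (a - 1) := by nlinarith
    nlinarith [mul_pos h0 h0]
  · unfold gc
    have h1 : (1 / (a + 1)) ^ (k + 1 + 1) ≤ (1 / (a - 1)) ^ (k + 1 + 1) := by
      apply pow_le_pow_left₀ (by positivity)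
      exact one_div_le_one_div_of_le h0 (by linarith)
    have h2 : |(1 / (a + 1)) ^ (k + 1 + 1) - (-1) ^ (k + 1) * (1 / (a - 1)) ^ (k + 1 + 1)| ≤
        2 * (1 / (a - 1)) ^ (k + 1 + 1) := by
      have h3 : |(1 / (a + 1)) ^ (k + 1 + 1)| ≤ (1 / (a - 1)) ^ (k + 1 + 1) := by
        rw [abs_of_nonneg (by positivity)]; exact h1
      have h4 : |(-1 : ℝ) ^ (k + 1) * (1 / (a - 1)) ^ (k + 1 + 1)| ≤
          (1 / (a - 1)) ^ (k + 1 + 1) := by
        rw [abs_mul, abs_pow, abs_neg, abs_one, one_pow, one_mul, abs_of_nonneg (by positivity)]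
      calc _ ≤ |(1 / (a + 1)) ^ (k + 1 + 1)| +
            |(-1 : ℝ) ^ (k + 1) * (1 / (a - 1)) ^ (k + 1 + 1)| := abs_sub _ _
        _ ≤ _ := by linarith
    refine h2.trans ?_
    have h5 : (1 / (a - 1)) ^ k ≤ (1 / s) ^ k := by
      apply pow_le_pow_left₀ (by positivity)
      exact one_div_le_one_div_of_le (by linarith) (by linarith)
    have e1 : 2 * (1 / (a - 1)) ^ (k + 1 + 1) = 2 / (a - 1) ^ 2 * (1 / (a - 1)) ^ k := by
      rw [pow_succ, pow_succ]; field_simp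
    have e2 : 2 * s / (a - 1) ^ 2 * (1 / s) ^ (k + 1) = 2 / (a - 1) ^ 2 * (1 / s) ^ k := by
      rw [pow_succ (1 / s)]; field_simp
    rw [e1, e2]
    exact mul_le_mul_of_nonneg_left h5 (by positivity)

theorem summable_sq : Summable (fun m : ℕ => 1 / ((m : ℝ) + 1) ^ 2) := by
  have := (summable_nat_add_iff 1).2 (Real.summable_one_div_nat_pow (p := 2).2 (by norm_num))
  simpa using this

theorem exch {a : ℕ → ℝ} (ha : ∀ m : ℕ, 3 * ((m : ℝ) + 1) ≤ a m) {X : ℂ} (hX : ‖X‖ ≤ 1 / 2) :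
    Summable (fun m => 1 / ((a m : ℂ) + 1 - X) - 1 / ((a m : ℂ) - 1 + X)) ∧
    HasSum (fun k : ℕ => (((∑' m, gc (a m) k : ℝ)) : ℂ) * X ^ k)
      (∑' m, (1 / ((a m : ℂ) + 1 - X) - 1 / ((a m : ℂ) - 1 + X))) := by
  have ha3 : ∀ m, 3 ≤ a m := fun m => by
    have := ha m
    have h2 : (0 : ℝ) ≤ m := by positivity
    linarith
  have hb : ∀ m k, |gc (a m) k| ≤ 1 / ((m : ℝ) + 1) ^ 2 * (1 / 2) ^ k := by
    intro m k
    refine (abs_gc_le (s := 2) le_rfl (by have := ha3 m; linarith) k).trans ?_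
    apply mul_le_mul_of_nonneg_right _ (by positivity)
    rw [div_le_div_iff₀ (by have := ha3 m; nlinarith) (by positivity)]
    have h1 := ha m
    have h2 : (0 : ℝ) ≤ m := by positivity
    have h3 : 2 * ((m : ℝ) + 1) ≤ a m - 1 := by linarith
    nlinarith
  have hF : Summable (fun p : ℕ × ℕ => (gc (a p.1) p.2 : ℂ) * X ^ p.2) := by
    apply Summable.of_norm
    have h1 : Summable (fun p : ℕ × ℕ => 1 / ((p.1 : ℝ) + 1) ^ 2 * (1 / 4) ^ p.2) :=
      Summable.mul_of_nonneg summable_sq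
        (summable_geometric_of_lt_one (by norm_num) (by norm_num))
        (fun _ => by positivity) (fun _ => by positivity)
    refine Summable.of_nonneg_of_le (fun _ => norm_nonneg _) (fun p => ?_) h1
    rw [norm_mul, norm_pow, Complex.norm_real, Real.norm_eq_abs]
    calc |gc (a p.1) p.2| * ‖X‖ ^ p.2
        ≤ (1 / ((p.1 : ℝ) + 1) ^ 2 * (1 / 2) ^ p.2) * (1 / 2) ^ p.2 := by
          apply mul_le_mul (hb _ _) (pow_le_pow_left₀ (norm_nonneg _) hX _) (by positivity)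
            (by positivity)
      _ = 1 / ((p.1 : ℝ) + 1) ^ 2 * (1 / 4) ^ p.2 := by
          rw [mul_assoc, ← mul_pow]; norm_num
  have h1 : ∀ m, HasSum (fun k => (gc (a m) k : ℂ) * X ^ k)
      (1 / ((a m : ℂ) + 1 - X) - 1 / ((a m : ℂ) - 1 + X)) := fun m => hasSum_gc (ha3 m) hX
  have h2 := hF.hasSum.prod_fiberwise h1
  refine ⟨h2.summable, ?_⟩
  rw [h2.tsum_eq]
  have hF' : Summable (fun p : ℕ × ℕ => (gc (a p.2) p.1 : ℂ) * X ^ p.1) := by
    have := (Equiv.prodComm ℕ ℕ).summable_iff.2 hF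
    exact this
  have e : (∑' p : ℕ × ℕ, (gc (a p.1) p.2 : ℂ) * X ^ p.2) =
      ∑' p : ℕ × ℕ, (gc (a p.2) p.1 : ℂ) * X ^ p.1 :=
    ((Equiv.prodComm ℕ ℕ).tsum_eq (fun p : ℕ × ℕ => (gc (a p.1) p.2 : ℂ) * X ^ p.2)).symm
  rw [e]
  refine hF'.hasSum.prod_fiberwise (fun k => ?_)
  have hs : Summable (fun m => gc (a m) k) := by
    apply Summable.of_norm
    refine Summable.of_nonneg_of_le (fun _ => norm_nonneg _) (fun m => ?_)
      (summable_sq.mul_right ((1 / 2 : ℝ) ^ k))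
    rw [Real.norm_eq_abs]; exact hb m k
  have h3 : HasSum (fun m => (gc (a m) k : ℂ)) ((∑' m, gc (a m) k : ℝ) : ℂ) := by
    exact_mod_cast hs.hasSum
  exact h3.mul_right (X ^ k)

/-- Coefficients of `(π/3) / sin (π (1 - X) / 3)`. -/
noncomputable def tc (k : ℕ) : ℝ :=
  1 + 2 * (∑' m : ℕ, gc (6 * ((m : ℝ) + 1)) k) - ∑' m : ℕ, gc (3 * ((m : ℝ) + 1)) k

theorem cot_terms {c : ℂ} (hc : c ≠ 0) {z : ℂ} (a : ℝ) {m : ℂ} (X : ℂ) (hz : z = (1 - X) / c)
    (ha : (a : ℂ) = c * m) (h1 : (a : ℂ) + 1 - X ≠ 0) (h2 : (a : ℂ) - 1 + X ≠ 0) :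
    1 / (z - m) + 1 / (z + m) = c * (1 / ((a : ℂ) + 1 - X) - 1 / ((a : ℂ) - 1 + X)) := by
  have e1 : z - m = -(((a : ℂ) - 1 + X) / c) := by
    rw [hz, ha]; field_simp; ring
  have e2 : z + m = ((a : ℂ) + 1 - X) / c := by
    rw [hz, ha]; field_simp; ring
  rw [e1, e2]
  field_simp
  ring

theorem add_one_sub_ne {a : ℝ} (ha : 3 ≤ a) {X : ℂ} (hX : ‖X‖ ≤ 1 / 2) :
    (a : ℂ) + 1 - X ≠ 0 ∧ (a : ℂ) - 1 + X ≠ 0 := by
  have hre := abs_le.1 ((Complex.abs_re_le_norm X).trans hX)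
  constructor
  · intro h
    have := congrArg Complex.re h
    simp at this
    linarith [hre.1, hre.2]
  · intro h
    have := congrArg Complex.re h
    simp at this
    linarith [hre.1, hre.2]

theorem mem_compl_third {X : ℂ} (hX : ‖X‖ ≤ 1 / 2) : (1 - X) / 3 ∈ Complex.integerComplement := by
  rw [Complex.mem_integerComplement_iff]
  rintro ⟨n, hn⟩
  have hre := abs_le.1 ((Complex.abs_re_le_norm X).trans hX)
  have h1 : (1 - X) = 3 * (n : ℂ) := by rw [hn]; ring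
  have h2 := congrArg Complex.re h1
  simp at h2
  have h3 : (n : ℝ) < 1 := by linarith [hre.1]
  have h4 : (0 : ℝ) < n := by linarith [hre.2]
  have h5 : n < 1 := by exact_mod_cast h3
  have h6 : 0 < n := by exact_mod_cast h4
  omega

theorem mem_compl_sixth {X : ℂ} (hX : ‖X‖ ≤ 1 / 2) : (1 - X) / 6 ∈ Complex.integerComplement := by
  rw [Complex.mem_integerComplement_iff]
  rintro ⟨n, hn⟩
  have hre := abs_le.1 ((Complex.abs_re_le_norm X).trans hX)
  have h1 : (1 - X) = 6 * (n : ℂ) := by rw [hn]; ring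
  have h2 := congrArg Complex.re h1
  simp at h2
  have h3 : (n : ℝ) < 1 := by linarith [hre.1]
  have h4 : (0 : ℝ) < n := by linarith [hre.2]
  have h5 : n < 1 := by exact_mod_cast h3
  have h6 : 0 < n := by exact_mod_cast h4
  omega

theorem mittag {X : ℂ} (hX : ‖X‖ ≤ 1 / 2) :
    ((Real.pi : ℂ) / 3) / Complex.sin (Real.pi * ((1 - X) / 3)) = 1 / (1 - X) +
      2 * (∑' m : ℕ, (1 / (((6 * ((m : ℝ) + 1) : ℝ) : ℂ) + 1 - X) -
        1 / (((6 * ((m : ℝ) + 1) : ℝ) : ℂ) - 1 + X))) -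
      ∑' m : ℕ, (1 / (((3 * ((m : ℝ) + 1) : ℝ) : ℂ) + 1 - X) -
        1 / (((3 * ((m : ℝ) + 1) : ℝ) : ℂ) - 1 + X)) := by
  have h3 := cot_series_rep' (mem_compl_third hX)
  have h6 := cot_series_rep' (mem_compl_sixth hX)
  have e3 : ∀ m : ℕ, 1 / ((1 - X) / 3 - ((m : ℂ) + 1)) + 1 / ((1 - X) / 3 + ((m : ℂ) + 1)) =
      3 * (1 / (((3 * ((m : ℝ) + 1) : ℝ) : ℂ) + 1 - X) -
        1 / (((3 * ((m : ℝ) + 1) : ℝ) : ℂ) - 1 + X)) := by
    intro m
    have hm : (3 : ℝ) ≤ 3 * ((m : ℝ) + 1) := by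
      have : (0 : ℝ) ≤ m := by positivity
      linarith
    obtain ⟨a1, a2⟩ := add_one_sub_ne hm hX
    exact cot_terms (by norm_num) _ X rfl (by push_cast; ring) a1 a2
  have e6 : ∀ m : ℕ, 1 / ((1 - X) / 6 - ((m : ℂ) + 1)) + 1 / ((1 - X) / 6 + ((m : ℂ) + 1)) =
      6 * (1 / (((6 * ((m : ℝ) + 1) : ℝ) : ℂ) + 1 - X) -
        1 / (((6 * ((m : ℝ) + 1) : ℝ) : ℂ) - 1 + X)) := by
    intro m
    have hm : (3 : ℝ) ≤ 6 * ((m : ℝ) + 1) := by
      have : (0 : ℝ) ≤ m := by positivity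
      linarith
    obtain ⟨a1, a2⟩ := add_one_sub_ne hm hX
    exact cot_terms (by norm_num) _ X rfl (by push_cast; ring) a1 a2
  simp only [e3, tsum_mul_left] at h3
  simp only [e6, tsum_mul_left] at h6
  set S3 := ∑' m : ℕ, (1 / (((3 * ((m : ℝ) + 1) : ℝ) : ℂ) + 1 - X) -
        1 / (((3 * ((m : ℝ) + 1) : ℝ) : ℂ) - 1 + X)) with hS3
  set S6 := ∑' m : ℕ, (1 / (((6 * ((m : ℝ) + 1) : ℝ) : ℂ) + 1 - X) -
        1 / (((6 * ((m : ℝ) + 1) : ℝ) : ℂ) - 1 + X)) with hS6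
  have hs3 := sin_pi_mul_ne_zero (mem_compl_third hX)
  have hs6 := sin_pi_mul_ne_zero (mem_compl_sixth hX)
  have hX1 : (1 - X) ≠ 0 := by
    have := Complex.integerComplement.ne_zero (mem_compl_third hX)
    intro h; rw [h] at this; simp at this
  have hy : (Real.pi : ℂ) * ((1 - X) / 3) = 2 * (Real.pi * ((1 - X) / 6)) := by ring
  have hcot : Complex.cot (Real.pi * ((1 - X) / 6)) - Complex.cot (Real.pi * ((1 - X) / 3)) =
      1 / Complex.sin (Real.pi * ((1 - X) / 3)) := by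
    unfold Complex.cot
    rw [div_sub_div _ _ hs6 hs3, div_eq_div_iff (mul_ne_zero hs6 hs3) hs3]
    rw [hy, Complex.sin_two_mul, Complex.cos_two_mul]
    ring
  have h1 : (Real.pi : ℂ) * (1 / Complex.sin (Real.pi * ((1 - X) / 3))) =
      1 / ((1 - X) / 6) + 6 * S6 - (1 / ((1 - X) / 3) + 3 * S3) := by
    rw [← hcot, ← h3, ← h6]; ring
  have h2 : ((Real.pi : ℂ) / 3) / Complex.sin (Real.pi * ((1 - X) / 3)) =
      (Real.pi : ℂ) * (1 / Complex.sin (Real.pi * ((1 - X) / 3))) / 3 := by ring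
  rw [h2, h1]
  field_simp
  ring

theorem hasSum_tc {X : ℂ} (hX : ‖X‖ ≤ 1 / 2) : HasSum (fun k => (tc k : ℂ) * X ^ k)
    (((Real.pi : ℂ) / 3) / Complex.sin (Real.pi * ((1 - X) / 3))) := by
  rw [mittag hX]
  have h0 : HasSum (fun k : ℕ => X ^ k) (1 / (1 - X)) := by
    rw [one_div]
    exact hasSum_geometric_of_norm_lt_one (by linarith)
  have h6 := (exch (a := fun m => 6 * ((m : ℝ) + 1)) (fun m => by
    have : (0 : ℝ) ≤ m := by positivity
    linarith) hX).2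
  have h3 := (exch (a := fun m => 3 * ((m : ℝ) + 1)) (fun m => le_rfl) hX).2
  have h := (h0.add (h6.mul_left 2)).sub h3
  convert! h using 1
  funext k
  unfold tc
  push_cast
  ring

theorem summable_gc {a : ℕ → ℝ} (ha : ∀ m : ℕ, 3 * ((m : ℝ) + 1) ≤ a m) (k : ℕ) :
    Summable (fun m => gc (a m) k) := by
  have ha3 : ∀ m, 3 ≤ a m := fun m => by
    have := ha m
    have h2 : (0 : ℝ) ≤ m := by positivity
    linarith
  apply Summable.of_norm
  refine Summable.of_nonneg_of_le (fun _ => norm_nonneg _) (fun m => ?_)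
    (summable_sq.mul_right ((1 / 2 : ℝ) ^ k))
  rw [Real.norm_eq_abs]
  refine (abs_gc_le (s := 2) le_rfl (by have := ha3 m; linarith) k).trans ?_
  apply mul_le_mul_of_nonneg_right _ (by positivity)
  rw [div_le_div_iff₀ (by have := ha3 m; nlinarith) (by positivity)]
  have h1 := ha m
  have h2 : (0 : ℝ) ≤ m := by positivity
  have h3 : 2 * ((m : ℝ) + 1) ≤ a m - 1 := by linarith
  nlinarith

/-- A tail bound by telescoping. -/
theorem tsum_sq_le {f : ℕ → ℝ} (hf : ∀ m, 0 ≤ f m) {g : ℕ → ℝ} (hg : ∀ m, 0 ≤ g m)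
    (h : ∀ m, f m ≤ g m - g (m + 1)) : Summable f ∧ ∑' m, f m ≤ g 0 := by
  have hp : ∀ n, ∑ i ∈ range n, f i ≤ g 0 - g n := by
    intro n
    induction n with
    | zero => simp
    | succ n ih =>
      rw [Finset.sum_range_succ]
      have := h n
      linarith
  have hp' : ∀ n, ∑ i ∈ range n, f i ≤ g 0 := fun n => by
    have := hp n; have := hg n; linarith
  exact ⟨summable_of_sum_range_le hf hp', Real.tsum_le_of_sum_range_le hf hp'⟩

theorem abs_tsum_gc_le {a f : ℕ → ℝ} (ha : ∀ m : ℕ, 5 ≤ a m) (hf : ∀ m, 8 / (a m - 1) ^ 2 ≤ f m)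
    {S : ℝ} (hs : Summable f) (hS : ∑' m, f m ≤ S) (k : ℕ) :
    |∑' m, gc (a m) k| ≤ S * (1 / 4) ^ k := by
  have hb : ∀ m, |gc (a m) k| ≤ f m * (1 / 4) ^ k := fun m => by
    refine (abs_gc_le (s := 4) (by norm_num) (by have := ha m; linarith) k).trans ?_
    apply mul_le_mul_of_nonneg_right _ (by positivity)
    rw [show (2 : ℝ) * 4 = 8 by norm_num]
    exact hf m
  have h1 : Summable (fun m => f m * (1 / 4 : ℝ) ^ k) := hs.mul_right _
  have h2 : Summable (fun m => |gc (a m) k|) :=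
    Summable.of_nonneg_of_le (fun _ => abs_nonneg _) hb h1
  calc |∑' m, gc (a m) k| ≤ ∑' m, |gc (a m) k| := by
        have := norm_tsum_le_tsum_norm (f := fun m => gc (a m) k) (by simpa using h2)
        simpa using this
    _ ≤ ∑' m, f m * (1 / 4 : ℝ) ^ k := h2.tsum_le_tsum hb h1
    _ = (∑' m, f m) * (1 / 4 : ℝ) ^ k := tsum_mul_right
    _ ≤ S * (1 / 4 : ℝ) ^ k := mul_le_mul_of_nonneg_right hS (by positivity)

theorem tc_bound (k : ℕ) : |tc k - 1 - 1 / 2 * (-1 / 2) ^ k| ≤ 2.35 * (1 / 4) ^ k := by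
  have hs3 := summable_gc (a := fun m => 3 * ((m : ℝ) + 1)) (fun m => le_rfl) k
  have e3 := hs3.tsum_eq_zero_add
  have e0 : gc (3 * (((0 : ℕ) : ℝ) + 1)) k = 1 / 4 * (1 / 4) ^ k - 1 / 2 * (-1 / 2) ^ k := by
    unfold gc
    rw [show (1 : ℝ) / (3 * (((0 : ℕ) : ℝ) + 1) + 1) = 1 / 4 by norm_num,
      show (1 : ℝ) / (3 * (((0 : ℕ) : ℝ) + 1) - 1) = 1 / 2 by norm_num,
      show (-1 / 2 : ℝ) = (-1) * (1 / 2) by norm_num, mul_pow]
    ring
  -- first family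
  obtain ⟨s6, b6⟩ := tsum_sq_le (f := fun m : ℕ => 8 / (6 * ((m : ℝ) + 1) - 1) ^ 2)
    (g := fun m : ℕ => 8 / 6 / (6 * (m : ℝ) + 2)) (fun m => by positivity)
    (fun m => by positivity) (fun m => by
      have h0 : (0 : ℝ) ≤ m := by positivity
      have h1 : (6 * ((m : ℝ) + 1) - 1) = 6 * (m : ℝ) + 5 := by ring
      push_cast
      rw [h1, div_sub_div _ _ (by positivity) (by positivity), div_le_div_iff₀ (by positivity)
        (by positivity)]
      nlinarith)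
  have c6 := abs_tsum_gc_le (a := fun m : ℕ => 6 * ((m : ℝ) + 1)) (fun m => by
    have h0 : (0 : ℝ) ≤ m := by positivity
    linarith) (fun m => le_rfl) s6 b6 k
  obtain ⟨s3, b3⟩ := tsum_sq_le (f := fun m : ℕ => 8 / (3 * (((m + 1 : ℕ) : ℝ) + 1) - 1) ^ 2)
    (g := fun m : ℕ => 16 / 3 / (6 * (m : ℝ) + 7)) (fun m => by positivity)
    (fun m => by positivity) (fun m => by
      have h0 : (0 : ℝ) ≤ m := by positivity
      have h1 : (3 * (((m + 1 : ℕ) : ℝ) + 1) - 1) = 3 * (m : ℝ) + 5 := by push_cast; ring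
      rw [h1]
      push_cast
      rw [div_sub_div _ _ (by positivity) (by positivity), div_le_div_iff₀ (by positivity)
        (by positivity)]
      nlinarith)
  have c3 := abs_tsum_gc_le (a := fun m : ℕ => 3 * (((m + 1 : ℕ) : ℝ) + 1)) (fun m => by
    have h0 : (0 : ℝ) ≤ m := by positivity
    push_cast; linarith) (fun m => le_rfl) s3 b3 k
  have h4 : (0 : ℝ) < (1 / 4) ^ k := by positivity
  have e : tc k - 1 - 1 / 2 * (-1 / 2) ^ k = -(1 / 4 * (1 / 4) ^ k) +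
      2 * (∑' m : ℕ, gc (6 * ((m : ℝ) + 1)) k) -
      ∑' m : ℕ, gc (3 * (((m + 1 : ℕ) : ℝ) + 1)) k := by
    unfold tc
    rw [e3, e0]; ring
  rw [e, abs_le]
  norm_num at c6 c3
  obtain ⟨l6, u6⟩ := abs_le.1 c6
  obtain ⟨l3, u3⟩ := abs_le.1 c3
  norm_num at *
  constructor <;> nlinarith

end Pool.Agent.H43.DD
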