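import Pool.Agent.H43.DD.Rec
import Pool.Agent.H43.DD.Mittag

/-!
Asymptotic expansion, with explicit error, of the numbers of permutations without double
descents.
-/

set_option autoImplicit false

namespace Pool.Agent.H43.DD

open Finset Complex

/-- Two power series with the same sum near `0` have the same coefficients. -/
theorem coeff_unique {a b : ℕ → ℂ} {f : ℂ → ℂ} {r : ℝ} (hr : 0 < r)
    (ha : ∀ X : ℂ, ‖X‖ ≤ r → HasSum (fun n => a n * X ^ n) (f X))
    (hb : ∀ X : ℂ, ‖X‖ ≤ r → HasSum (fun n => b n * X ^ n) (f X)) : a = b := by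
  have hev : ∀ᶠ X : ℂ in nhds 0, ‖X‖ ≤ r := by
    filter_upwards [Metric.ball_mem_nhds (0 : ℂ) hr] with X hX
    rw [mem_ball_zero_iff] at hX
    exact hX.le
  have h1 : HasFPowerSeriesAt f (FormalMultilinearSeries.ofScalars ℂ a) 0 := by
    rw [hasFPowerSeriesAt_iff]
    filter_upwards [hev] with X hX
    have := ha X hX
    simp only [FormalMultilinearSeries.coeff_ofScalars, smul_eq_mul, zero_add]
    convert! this using 1
    funext n; ring
  have h2 : HasFPowerSeriesAt f (FormalMultilinearSeries.ofScalars ℂ b) 0 := by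
    rw [hasFPowerSeriesAt_iff]
    filter_upwards [hev] with X hX
    have := hb X hX
    simp only [FormalMultilinearSeries.coeff_ofScalars, smul_eq_mul, zero_add]
    convert! this using 1
    funext n; ring
  have h3 := h1.eq_formalMultilinearSeries h2
  funext n
  have h4 := congrArg (fun p => FormalMultilinearSeries.coeff p n) h3
  simpa using h4

/-- The root. -/
noncomputable def rho : ℝ := 2 * Real.pi / (3 * Real.sqrt 3)

theorem rho_pos : 0 < rho := by unfold rho; positivity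

/-- `uu j = c ω^j + c' ω'^j`. -/
theorem uu_complex (j : ℕ) : (uu j : ℂ) =
    (1 / 2 + I / (2 * (Real.sqrt 3 : ℂ))) * (-1 / 2 + (Real.sqrt 3 : ℂ) / 2 * I) ^ j +
    (1 / 2 - I / (2 * (Real.sqrt 3 : ℂ))) * (-1 / 2 - (Real.sqrt 3 : ℂ) / 2 * I) ^ j := by
  have h3 : (Real.sqrt 3 : ℂ) * (Real.sqrt 3 : ℂ) = 3 := by
    rw [← Complex.ofReal_mul, Real.mul_self_sqrt (by norm_num)]; norm_num
  have h0 : (Real.sqrt 3 : ℂ) ≠ 0 := by
    intro h; rw [h] at h3; norm_num at h3
  have hI : I * I = -1 := Complex.I_mul_I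
  set s := (Real.sqrt 3 : ℂ) with hs
  have w3 : (-1 / 2 + s / 2 * I) ^ 3 = 1 := by
    have e : (-1 / 2 + s / 2 * I) ^ 3 = -1 / 8 + 3 / 8 * s * I - 3 / 8 * (s * s) * (I * I) +
      1 / 8 * (s * s) * s * (I * I) * I := by ring
    rw [e, h3, hI]; ring
  have w3' : (-1 / 2 - s / 2 * I) ^ 3 = 1 := by
    have e : (-1 / 2 - s / 2 * I) ^ 3 = -1 / 8 - 3 / 8 * s * I - 3 / 8 * (s * s) * (I * I) -
      1 / 8 * (s * s) * s * (I * I) * I := by ring
    rw [e, h3, hI]; ring
  have key : ∀ q : ℕ, ∀ r : ℕ, (-1 / 2 + s / 2 * I) ^ (3 * q + r) = (-1 / 2 + s / 2 * I) ^ r ∧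
      (-1 / 2 - s / 2 * I) ^ (3 * q + r) = (-1 / 2 - s / 2 * I) ^ r := fun q r => by
    rw [pow_add, pow_mul, w3, pow_add, pow_mul, w3']; simp
  have hj : j = 3 * (j / 3) + j % 3 := by omega
  have hI2 : I / (2 * s) * s = I / 2 := by field_simp
  have h4 : j % 3 = 0 ∨ j % 3 = 1 ∨ j % 3 = 2 := by omega
  unfold uu
  rcases h4 with h | h | h
  · rw [hj, h, (key _ _).1, (key _ _).2]
    simp; norm_num
  · have h5 : (3 * (j / 3) + 1) % 3 = 1 := by omega
    rw [hj, h, (key _ _).1, (key _ _).2, h5]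
    have e : (1 / 2 + I / (2 * s)) * (-1 / 2 + s / 2 * I) ^ 1 +
        (1 / 2 - I / (2 * s)) * (-1 / 2 - s / 2 * I) ^ 1 = -1 / 2 + (I / (2 * s) * s) * I := by ring
    rw [e, hI2]
    simp only [one_ne_zero, if_false, if_true]
    push_cast
    linear_combination (1 / 2 : ℂ) * (-1 : ℂ) * (hI)
  · have h5 : (3 * (j / 3) + 2) % 3 = 2 := by omega
    rw [hj, h, (key _ _).1, (key _ _).2, h5]
    have e : (1 / 2 + I / (2 * s)) * (-1 / 2 + s / 2 * I) ^ 2 +
        (1 / 2 - I / (2 * s)) * (-1 / 2 - s / 2 * I) ^ 2 =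
        1 / 4 + (s * s) / 4 * (I * I) - (I / (2 * s) * s) * I := by ring
    rw [e, hI2, h3, hI]
    norm_num
    linear_combination (1 / 2 : ℂ) * (hI)

theorem hasSum_exp (x : ℂ) : HasSum (fun n : ℕ => x ^ n / (n.factorial : ℂ)) (Complex.exp x) := by
  rw [Complex.exp_eq_exp_ℂ]
  exact NormedSpace.expSeries_div_hasSum_exp x

theorem hasSum_Z (x : ℂ) : HasSum (fun j : ℕ => ((uu j / (j.factorial : ℝ) : ℝ) : ℂ) * x ^ j)
    (Complex.exp (-x / 2) * (2 / (Real.sqrt 3 : ℂ)) *
      Complex.sin (Real.pi / 3 - (Real.sqrt 3 : ℂ) / 2 * x)) := by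
  have h3 : (Real.sqrt 3 : ℂ) * (Real.sqrt 3 : ℂ) = 3 := by
    rw [← Complex.ofReal_mul, Real.mul_self_sqrt (by norm_num)]; norm_num
  have h0 : (Real.sqrt 3 : ℂ) ≠ 0 := by
    intro h; rw [h] at h3; norm_num at h3
  have hsin : Complex.sin ((Real.pi : ℂ) / 3) = (Real.sqrt 3 : ℂ) / 2 := by
    have := Real.sin_pi_div_three
    have h : Complex.sin ((Real.pi / 3 : ℝ) : ℂ) = ((Real.sqrt 3 / 2 : ℝ) : ℂ) := by
      rw [← Complex.ofReal_sin, this]
    push_cast at h; exact h
  have hcos : Complex.cos ((Real.pi : ℂ) / 3) = 1 / 2 := by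
    have := Real.cos_pi_div_three
    have h : Complex.cos ((Real.pi / 3 : ℝ) : ℂ) = ((1 / 2 : ℝ) : ℂ) := by
      rw [← Complex.ofReal_cos, this]
    push_cast at h; exact h
  set s := (Real.sqrt 3 : ℂ) with hs
  have h1 := (hasSum_exp ((-1 / 2 + s / 2 * I) * x)).mul_left (1 / 2 + I / (2 * s))
  have h2 := (hasSum_exp ((-1 / 2 - s / 2 * I) * x)).mul_left (1 / 2 - I / (2 * s))
  have h := h1.add h2
  convert! h using 1
  · funext j
    push_cast
    rw [uu_complex j, mul_pow, mul_pow]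
    ring
  · have e1 : (-1 / 2 + s / 2 * I) * x = -x / 2 + (s / 2 * x) * I := by ring
    have e2 : (-1 / 2 - s / 2 * I) * x = -x / 2 + (-(s / 2 * x)) * I := by ring
    rw [e1, e2, Complex.exp_add, Complex.exp_add, Complex.exp_mul_I, Complex.exp_mul_I,
      Complex.cos_neg, Complex.sin_neg, Complex.sin_sub, hsin, hcos]
    have hI : I * I = -1 := Complex.I_mul_I
    have e3 : (1 / 2 + I / (2 * s)) * (Complex.exp (-x / 2) *
        (Complex.cos (s / 2 * x) + Complex.sin (s / 2 * x) * I)) +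
        (1 / 2 - I / (2 * s)) * (Complex.exp (-x / 2) *
        (Complex.cos (s / 2 * x) + -Complex.sin (s / 2 * x) * I)) =
        Complex.exp (-x / 2) * (Complex.cos (s / 2 * x) + Complex.sin (s / 2 * x) / s * (I * I)) := by
      field_simp
      ring
    rw [e3, hI]
    field_simp
    ring

theorem summable_ee {x : ℂ} (hx : ‖x‖ < 1) : Summable (fun m : ℕ => ‖(ee m : ℂ) * x ^ m‖) := by
  refine Summable.of_nonneg_of_le (fun _ => norm_nonneg _) (fun m => ?_)
    (summable_geometric_of_lt_one (norm_nonneg x) hx)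
  rw [norm_mul, norm_pow, Complex.norm_real, Real.norm_of_nonneg (ee_nonneg m)]
  exact mul_le_of_le_one_left (by positivity) (ee_le_one m)

theorem ee_mul_Z {x : ℂ} (hx : ‖x‖ < 1) :
    (∑' m : ℕ, (ee m : ℂ) * x ^ m) * (Complex.exp (-x / 2) * (2 / (Real.sqrt 3 : ℂ)) *
      Complex.sin (Real.pi / 3 - (Real.sqrt 3 : ℂ) / 2 * x)) = 1 := by
  have hZ := hasSum_Z x
  have hZs : Summable (fun j : ℕ => ‖((uu j / (j.factorial : ℝ) : ℝ) : ℂ) * x ^ j‖) := by
    have h1 : Summable (fun j : ℕ => ‖x‖ ^ j / (j.factorial : ℝ)) :=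
      Real.summable_pow_div_factorial ‖x‖
    refine Summable.of_nonneg_of_le (fun _ => norm_nonneg _) (fun j => ?_) h1
    rw [norm_mul, norm_pow, Complex.norm_real, Real.norm_eq_abs, abs_div,
      abs_of_nonneg (show (0 : ℝ) ≤ (j.factorial : ℝ) by positivity), div_mul_eq_mul_div]
    apply div_le_div_of_nonneg_right _ (by positivity)
    exact mul_le_of_le_one_left (by positivity) (abs_uu_le j)
  rw [← hZ.tsum_eq, mul_comm,
    tsum_mul_tsum_eq_tsum_sum_range_of_summable_norm hZs (summable_ee hx)]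
  have h : ∀ n : ℕ, ∑ k ∈ range (n + 1), ((uu k / (k.factorial : ℝ) : ℝ) : ℂ) * x ^ k *
      ((ee (n - k) : ℂ) * x ^ (n - k)) = if n = 0 then 1 else 0 := by
    intro n
    have h1 := ee_conv n
    have h2 : ∑ k ∈ range (n + 1), ((uu k / (k.factorial : ℝ) : ℝ) : ℂ) * x ^ k *
      ((ee (n - k) : ℂ) * x ^ (n - k)) =
      ((∑ k ∈ range (n + 1), uu k / (k.factorial : ℝ) * ee (n - k) : ℝ) : ℂ) * x ^ n := by
      push_cast
      rw [Finset.sum_mul]
      refine Finset.sum_congr rfl (fun k hk => ?_)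
      have hk' : k ≤ n := by simpa [Nat.lt_succ_iff] using hk
      rw [show x ^ n = x ^ k * x ^ (n - k) by rw [← pow_add]; congr 1; omega]
      ring
    rw [h2, h1]
    rcases n with _ | n <;> simp
  simp only [h]
  simp

theorem rho_mul : (Real.sqrt 3 / 2) * rho = Real.pi / 3 := by
  unfold rho
  have h : Real.sqrt 3 ≠ 0 := by positivity
  field_simp

theorem rho_lt : rho < 1.2092 := by
  unfold rho
  rw [div_lt_iff₀ (by positivity)]
  have h1 := Real.pi_lt_d6
  have h2 : (1.7320508 : ℝ) < Real.sqrt 3 := by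
    rw [Real.lt_sqrt (by norm_num)]; norm_num
  nlinarith

theorem rho_gt : 1.2091 < rho := by
  unfold rho
  rw [lt_div_iff₀ (by positivity)]
  have h1 := Real.pi_gt_d6
  have h2 : Real.sqrt 3 < 1.73206 := by
    rw [Real.sqrt_lt' (by norm_num)]; norm_num
  nlinarith

/-- Weights. -/
noncomputable def ww (k : ℕ) : ℝ := (rho / 2) ^ k / (k.factorial : ℝ)

/-- Normalized coefficients. -/
noncomputable def EE (m : ℕ) : ℝ := rho ^ (m + 1) * ee m

theorem EE_eq (m : ℕ) : EE m = ∑ k ∈ range (m + 1), ww k * tc (m - k) := by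
  have hr := rho_pos
  have key : (fun m => ((EE m : ℝ) : ℂ)) =
      fun m => ((∑ k ∈ range (m + 1), ww k * tc (m - k) : ℝ) : ℂ) := by
    refine coeff_unique (r := 1 / 2) (f := fun X => Complex.exp (rho * X / 2) *
      (((Real.pi : ℂ) / 3) / Complex.sin (Real.pi * ((1 - X) / 3)))) (by norm_num)
      (fun X hX => ?_) (fun X hX => ?_)
    · have hx : ‖(rho : ℂ) * X‖ < 1 := by
        rw [norm_mul, Complex.norm_real, Real.norm_of_nonneg hr.le]
        have := rho_lt
        nlinarith [norm_nonneg X]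
      have h1 := (summable_ee hx).of_norm.hasSum.mul_left (rho : ℂ)
      have h2 := ee_mul_Z hx
      have hsin := sin_pi_mul_ne_zero (mem_compl_third hX)
      have e1 : (Real.pi : ℂ) / 3 - (Real.sqrt 3 : ℂ) / 2 * ((rho : ℂ) * X) =
          Real.pi * ((1 - X) / 3) := by
        have := congrArg (fun t : ℝ => (t : ℂ)) rho_mul
        push_cast at this
        linear_combination (-X) * this
      rw [e1] at h2
      have h0 : (Real.sqrt 3 : ℂ) ≠ 0 := by
        exact_mod_cast (show Real.sqrt 3 ≠ 0 by positivity)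
      have h3 : (∑' m : ℕ, (ee m : ℂ) * ((rho : ℂ) * X) ^ m) = Complex.exp (rho * X / 2) *
          ((Real.sqrt 3 : ℂ) / 2 / Complex.sin (Real.pi * ((1 - X) / 3))) := by
        have h4 : Complex.exp (-((rho : ℂ) * X) / 2) * Complex.exp (rho * X / 2) = 1 := by
          rw [← Complex.exp_add, show -((rho : ℂ) * X) / 2 + rho * X / 2 = 0 by ring,
            Complex.exp_zero]
        generalize Complex.sin (Real.pi * ((1 - X) / 3)) = sn at h2 hsin ⊢
        generalize (∑' m : ℕ, (ee m : ℂ) * ((rho : ℂ) * X) ^ m) = S at h2 ⊢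
        have h6 : (2 / (Real.sqrt 3 : ℂ)) * sn * ((Real.sqrt 3 : ℂ) / 2 / sn) = 1 := by
          field_simp
        calc S = S * (Complex.exp (-((rho : ℂ) * X) / 2) * Complex.exp (rho * X / 2)) *
              ((2 / (Real.sqrt 3 : ℂ)) * sn * ((Real.sqrt 3 : ℂ) / 2 / sn)) := by
              rw [h4, h6]; ring
          _ = (S * (Complex.exp (-((rho : ℂ) * X) / 2) * (2 / (Real.sqrt 3 : ℂ)) * sn)) *
              (Complex.exp (rho * X / 2) * ((Real.sqrt 3 : ℂ) / 2 / sn)) := by ring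
          _ = _ := by rw [h2, one_mul]
      rw [h3] at h1
      convert! h1 using 1
      · funext m
        unfold EE
        push_cast
        rw [mul_pow]
        ring
      · have := congrArg (fun t : ℝ => (t : ℂ)) rho_mul
        push_cast at this
        rw [← this]
        ring
    · have h1 := hasSum_exp (rho * X / 2)
      have h2 := hasSum_tc hX
      have n1 : Summable (fun n : ℕ => ‖(rho * X / 2) ^ n / (n.factorial : ℂ)‖) :=
        NormedSpace.norm_expSeries_div_summable (rho * X / 2)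
      have n2 : Summable (fun k : ℕ => ‖(tc k : ℂ) * X ^ k‖) := by
        exact h2.summable.norm
      have h3 := tsum_mul_tsum_eq_tsum_sum_range_of_summable_norm n1 n2
      have h4 := summable_norm_sum_mul_range_of_summable_norm n1 n2
      rw [h1.tsum_eq, h2.tsum_eq] at h3
      rw [h3]
      convert! h4.of_norm.hasSum using 1
      funext n
      unfold ww
      push_cast
      rw [Finset.sum_mul]
      refine Finset.sum_congr rfl (fun k hk => ?_)
      have hk' : k ≤ n := by simpa [Nat.lt_succ_iff] using hk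
      rw [show X ^ n = X ^ k * X ^ (n - k) by rw [← pow_add]; congr 1; omega]
      rw [show (rho : ℂ) * X / 2 = (rho / 2) * X by ring, mul_pow]
      ring
  have := congrFun key m
  exact_mod_cast this

theorem hasSum_rexp (x : ℝ) : HasSum (fun n : ℕ => x ^ n / (n.factorial : ℝ)) (Real.exp x) := by
  rw [Real.exp_eq_exp_ℝ]
  exact NormedSpace.expSeries_div_hasSum_exp x

theorem hasSum_ww (c : ℝ) : HasSum (fun k => ww k * c ^ k) (Real.exp (rho / 2 * c)) := by
  have h := hasSum_rexp (rho / 2 * c)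
  convert! h using 1
  funext k
  unfold ww
  rw [mul_pow]; ring

theorem ww_nonneg (k : ℕ) : 0 ≤ ww k := by
  have := rho_pos
  unfold ww; positivity

/-- Main constants. -/
noncomputable def CC : ℝ := Real.exp (rho / 2)
noncomputable def C1 : ℝ := Real.exp (-rho) / 2
noncomputable def BB : ℝ := 2.35 * Real.exp (2 * rho)

theorem pow_split {k m : ℕ} (h : k ≤ m) (a b : ℝ) (hab : a * b = 1) :
    a ^ (m - k) = b ^ k * a ^ m := by
  obtain ⟨d, rfl⟩ : ∃ d, m = k + d := ⟨m - k, by omega⟩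
  rw [Nat.add_sub_cancel_left, pow_add, ← mul_assoc, ← mul_pow, mul_comm b a, hab, one_pow, one_mul]

theorem pow_split' {k m : ℕ} (h : m ≤ k) (a b : ℝ) (hab : a * b = 1) :
    b ^ (k - m) = b ^ k * a ^ m := by
  obtain ⟨d, rfl⟩ : ∃ d, k = m + d := ⟨k - m, by omega⟩
  rw [Nat.add_sub_cancel_left, pow_add, mul_comm (b ^ m), mul_assoc, ← mul_pow, mul_comm b a, hab,
    one_pow, mul_one]

theorem EE_bound (m : ℕ) : |EE m - CC - C1 * (-1 / 2) ^ m| ≤ BB * (1 / 4) ^ m := by
  set ext : ℕ → ℝ := fun k => if k ≤ m then tc (m - k) else 0 with hext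
  have h1 : HasSum (fun k => ww k * ext k) (EE m) := by
    rw [EE_eq]
    have : ∀ k ∉ range (m + 1), ww k * ext k = 0 := by
      intro k hk
      have hk' : ¬ k ≤ m := by simpa [Nat.lt_succ_iff] using hk
      simp [hext, hk']
    have h2 : HasSum (fun k => ww k * ext k) (∑ k ∈ range (m + 1), ww k * ext k) :=
      hasSum_sum_of_ne_finset_zero this
    convert! h2 using 1
    refine Finset.sum_congr rfl (fun k hk => ?_)
    have hk' : k ≤ m := by simpa [Nat.lt_succ_iff] using hk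
    simp [hext, hk']
  have h2 : HasSum (fun k => ww k * 1 ^ k) CC := by
    have := hasSum_ww 1
    rw [mul_one] at this; exact this
  have h3 : HasSum (fun k => 1 / 2 * (-1 / 2) ^ m * (ww k * (-2) ^ k)) (C1 * (-1 / 2) ^ m) := by
    have := (hasSum_ww (-2)).mul_left (1 / 2 * (-1 / 2) ^ m)
    rw [show rho / 2 * -2 = -rho by ring] at this
    unfold C1
    convert! this using 1
    ring
  have h4 := (h1.sub h2).sub h3
  have h5 : HasSum (fun k => 2.35 * (1 / 4) ^ m * (ww k * 4 ^ k)) (BB * (1 / 4) ^ m) := by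
    have := (hasSum_ww 4).mul_left (2.35 * (1 / 4) ^ m)
    rw [show rho / 2 * 4 = 2 * rho by ring] at this
    unfold BB
    convert! this using 1
    ring
  have hb : ∀ k, |ww k * ext k - ww k * 1 ^ k - 1 / 2 * (-1 / 2) ^ m * (ww k * (-2) ^ k)| ≤
      2.35 * (1 / 4) ^ m * (ww k * 4 ^ k) := by
    intro k
    have e : ww k * ext k - ww k * 1 ^ k - 1 / 2 * (-1 / 2) ^ m * (ww k * (-2) ^ k) =
        ww k * (ext k - 1 - 1 / 2 * ((-2) ^ k * (-1 / 2) ^ m)) := by
      rw [one_pow]; ring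
    rw [e, abs_mul, abs_of_nonneg (ww_nonneg k)]
    rw [show 2.35 * (1 / 4 : ℝ) ^ m * (ww k * 4 ^ k) = ww k * (2.35 * (4 ^ k * (1 / 4) ^ m)) by ring]
    apply mul_le_mul_of_nonneg_left _ (ww_nonneg k)
    rcases Nat.lt_or_ge m k with h | h
    · have : ¬ k ≤ m := by omega
      simp only [hext, this, if_false]
      rw [← pow_split' h.le (-1 / 2) (-2) (by norm_num), ← pow_split' h.le (1 / 4) 4 (by norm_num)]
      obtain ⟨d, hd⟩ : ∃ d, k - m = d + 1 := ⟨k - m - 1, by omega⟩
      rw [hd]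
      have a1 : |(0 : ℝ) - 1 - 1 / 2 * (-2) ^ (d + 1)| ≤ 1 + 1 / 2 * 2 ^ (d + 1) := by
        calc _ ≤ |(0 : ℝ) - 1| + |1 / 2 * (-2 : ℝ) ^ (d + 1)| := abs_sub _ _
          _ = _ := by
            rw [abs_mul, abs_pow]; norm_num
      have a2 : (2 : ℝ) ^ (d + 1) ≤ 4 ^ (d + 1) := pow_le_pow_left₀ (by norm_num) (by norm_num) _
      have a3 : (4 : ℝ) ≤ 4 ^ (d + 1) := by
        rw [pow_succ]
        have : (1 : ℝ) ≤ 4 ^ d := one_le_pow₀ (by norm_num)
        linarith
      linarith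
    · simp only [hext, h, if_true]
      rw [← pow_split h (-1 / 2) (-2) (by norm_num), ← pow_split h (1 / 4) 4 (by norm_num)]
      exact tc_bound (m - k)
  have h6 : Summable (fun k => |ww k * ext k - ww k * 1 ^ k -
      1 / 2 * (-1 / 2) ^ m * (ww k * (-2) ^ k)|) :=
    Summable.of_nonneg_of_le (fun _ => abs_nonneg _) hb h5.summable
  rw [← h4.tsum_eq, ← h5.tsum_eq]
  calc _ ≤ ∑' k, |ww k * ext k - ww k * 1 ^ k - 1 / 2 * (-1 / 2) ^ m * (ww k * (-2) ^ k)| := by
        have := norm_tsum_le_tsum_norm (f := fun k => ww k * ext k - ww k * 1 ^ k -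
          1 / 2 * (-1 / 2) ^ m * (ww k * (-2) ^ k)) (by simpa using h6)
        simpa using this
    _ ≤ _ := h6.tsum_le_tsum hb h5.summable

end Pool.Agent.H43.DD
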