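import Pool.Agent.H43.DD.Runs

/-!
Formula for the number of permutations with exactly one double descent.
-/

set_option autoImplicit false

namespace Pool.Agent.H43.DD

open Finset

/-- The sequence `1, -1, 0, 1, -1, 0, …`. -/
def uu (a : ℕ) : ℝ := if a % 3 = 0 then 1 else if a % 3 = 1 then -1 else 0

theorem uu_add_three (a : ℕ) : uu (a + 3) = uu a := by
  unfold uu; simp

theorem uu_zero : uu 0 = 1 := by simp [uu]
theorem uu_one : uu 1 = -1 := by simp [uu]
theorem uu_two : uu 2 = 0 := by simp [uu]

theorem uu_sum (a : ℕ) : uu (a + 2) + uu (a + 1) + uu a = 0 := by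
  unfold uu
  have : a % 3 = 0 ∨ a % 3 = 1 ∨ a % 3 = 2 := by omega
  rcases this with h | h | h
  · have h1 : (a + 1) % 3 = 1 := by omega
    have h2 : (a + 2) % 3 = 2 := by omega
    simp [h, h1, h2]
  · have h1 : (a + 1) % 3 = 2 := by omega
    have h2 : (a + 2) % 3 = 0 := by omega
    simp [h, h1, h2]
  · have h1 : (a + 1) % 3 = 0 := by omega
    have h2 : (a + 2) % 3 = 1 := by omega
    simp [h, h1, h2]

theorem abs_uu_le (a : ℕ) : |uu a| ≤ 1 := by
  unfold uu; split_ifs <;> simp

theorem conv_inv (x j : ℕ → ℝ) (N : ℕ) (h0 : x 0 = j 0) (h1 : 1 ≤ N → x 1 = j 1 + j 0)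
    (h2 : ∀ p, p + 2 ≤ N → x (p + 2) = j (p + 2) + j (p + 1) + j p) :
    ∀ p ≤ N, j p = ∑ a ∈ range (p + 1), uu a * x (p - a) := by
  intro p
  induction p using Nat.strong_induction_on with
  | _ p ih =>
    intro hp
    rcases p with _ | _ | _ | p
    · simp [uu_zero, h0]
    · simp only [Finset.sum_range_succ, Finset.sum_range_zero, uu_zero, uu_one]
      have := h1 (by omega)
      simp only [Nat.sub_zero, Nat.sub_self, zero_add, this, h0]; ring
    · simp only [Finset.sum_range_succ, Finset.sum_range_zero, uu_zero, uu_one, uu_two]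
      have a1 := h1 (by omega)
      have a2 := h2 0 (by omega)
      norm_num at a1 a2 ⊢
      rw [a1, a2]; ring
    · have a1 := h2 (p + 1) (by omega)
      have a2 := h2 p (by omega)
      have a3 := ih p (by omega) (by omega)
      rw [Finset.sum_range_succ', Finset.sum_range_succ', Finset.sum_range_succ']
      have e : ∑ a ∈ range (p + 1), uu (a + 1 + 1 + 1) * x (p + 1 + 1 + 1 - (a + 1 + 1 + 1)) =
          ∑ a ∈ range (p + 1), uu a * x (p - a) := by
        refine Finset.sum_congr rfl (fun a _ => ?_)
        rw [show a + 1 + 1 + 1 = a + 3 from rfl, uu_add_three,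
          show p + 1 + 1 + 1 - (a + 3) = p - a by omega]
      rw [e, ← a3]
      simp only [zero_add, uu_zero, uu_one, show (1 + 1 : ℕ) = 2 from rfl, uu_two, Nat.sub_zero,
        show p + 1 + 1 + 1 - 1 = p + 2 from rfl]
      rw [show p + 1 + 1 + 1 = p + 1 + 2 from rfl, a1, a2]; ring

/-- Both ends of the decreasing block `[p, p + k)` are maximal. -/
def JJ (p k q : ℕ) (f : ℕ → ℕ) : Prop :=
  NoDD p f ∧ Dec k (sh p f) ∧ (p = 0 ∨ f (p - 1) < f p) ∧
    ((q = 0 ∨ f (p + k - 1) < f (p + k)) ∧ NoDD q (sh (p + k) f))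

theorem cnt_JR (p k q n : ℕ) (hk : 1 ≤ k) (hn : n = p + k + q) :
    cnt n (JR (NoDD p) p k q) =
      ∑ b ∈ range (q + 1), uu b * cnt n (X3 p (k + b) (q - b)) := by
  have h := conv_inv (fun q' => cnt n (XR (NoDD p) p (k + q - q') q'))
    (fun q' => cnt n (JR (NoDD p) p (k + q - q') q')) q (XR_zero _ _ _ _) (fun h1 => ?_)
    (fun q' h2 => ?_) q le_rfl
  · simp only [Nat.add_sub_cancel] at h
    rw [h]
    refine Finset.sum_congr rfl (fun b hb => ?_)
    have hb' : b ≤ q := by simpa [Nat.lt_succ_iff] using hb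
    rw [show k + q - (q - b) = k + b by omega]
    rfl
  · have := XR_one (NoDD p) (p := p) (k := k + q - 1) (n := n) (by omega) (by omega)
    rw [show k + q - 1 + 1 = k + q - 0 by omega] at this
    exact this
  · have := XR_two (NoDD p) (p := p) (k := k + q - (q' + 2)) (q := q') (n := n) (by omega)
      (by omega)
    rw [show k + q - (q' + 2) + 1 = k + q - (q' + 1) by omega,
      show k + q - (q' + 2) + 2 = k + q - q' by omega] at this
    exact this

theorem cnt_JJ (p k q n : ℕ) (hk : 1 ≤ k) (hn : n = p + k + q) :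
    cnt n (JJ p k q) / (n.factorial : ℝ) =
      ∑ a ∈ range (p + 1), ∑ b ∈ range (q + 1),
        uu a * uu b * (ee (p - a) * ee (q - b) / ((k + a + b).factorial : ℝ)) := by
  obtain ⟨r, hr⟩ : ∃ r, r = p + k := ⟨_, rfl⟩
  set E : (ℕ → ℕ) → Prop := fun f => (q = 0 ∨ f (r - 1) < f r) ∧ NoDD q (sh r f) with hE
  have h := conv_inv (fun p' => cnt n (XL E p' (r - p')))
    (fun p' => cnt n (JL E p' (r - p'))) p (XL_zero _ _ _) (fun h1 => ?_)
    (fun p' h2 => ?_) p le_rfl
  · have e1 : cnt n (JJ p k q) = cnt n (JL E p (r - p)) := by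
      rw [show r - p = k by omega]
      refine cnt_congr (fun w => ?_)
      unfold JJ JL
      rw [hE, hr]
    rw [e1, h, Finset.sum_div]
    refine Finset.sum_congr rfl (fun a ha => ?_)
    have ha' : a ≤ p := by simpa [Nat.lt_succ_iff] using ha
    have e2 : cnt n (XL E (p - a) (r - (p - a))) =
        cnt n (JR (NoDD (p - a)) (p - a) (k + a) q) := by
      refine cnt_congr (fun w => ?_)
      unfold XL JR
      rw [hE, show r - (p - a) = k + a by omega, show p - a + (k + a) = r by omega]
    rw [e2, cnt_JR (p - a) (k + a) q n (by omega) (by omega), Finset.mul_sum, Finset.sum_div]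
    refine Finset.sum_congr rfl (fun b hb => ?_)
    have hb' : b ≤ q := by simpa [Nat.lt_succ_iff] using hb
    have e3 := cnt_X3 (p - a) (k + a + b) (q - b) n (by omega)
    rw [← e3]; ring
  · have := XL_one E (k := r - 1) (n := n) (by omega) (by omega)
    rw [show r - 1 + 1 = r - 0 by omega] at this
    exact this
  · have := XL_two E (p := p') (k := r - (p' + 2)) (n := n) (by omega) (by omega)
    rw [show r - (p' + 2) + 1 = r - (p' + 1) by omega,
      show r - (p' + 2) + 2 = r - p' by omega] at this
    exact this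

/-- The double descents of `f` among the first `n` values (positions numbered from 1) are
exactly `{i}`. -/
def OneDD (n i : ℕ) (f : ℕ → ℕ) : Prop :=
  ∀ j, 2 ≤ j → j + 1 ≤ n → ((f (j - 1) < f (j - 2) ∧ f j < f (j - 1)) ↔ j = i)

theorem oneDD_iff {n i : ℕ} (hi : 2 ≤ i) (hin : i + 1 ≤ n) (w : Equiv.Perm (Fin n)) :
    OneDD n i (vals w) ↔ JJ (i - 2) 3 (n - i - 1) (vals w) := by
  obtain ⟨p, rfl⟩ : ∃ p, i = p + 2 := ⟨i - 2, by omega⟩
  obtain ⟨q, rfl⟩ : ∃ q, n = p + 3 + q := ⟨n - (p + 3), by omega⟩
  have hne : ∀ a b : ℕ, a < p + 3 + q → b < p + 3 + q → a ≠ b → vals w a ≠ vals w b :=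
    fun a b ha hb hab h => hab (vals_inj w ha hb h)
  rw [show p + 2 - 2 = p from rfl, show p + 3 + q - (p + 2) - 1 = q by omega]
  generalize vals w = f at hne
  unfold OneDD JJ NoDD Dec sh
  constructor
  · intro h
    have h0 := h (p + 2) (by omega) (by omega)
    simp only [show p + 2 - 1 = p + 1 from rfl, show p + 2 - 2 = p from rfl, iff_true] at h0
    refine ⟨fun j hj hc => ?_, fun j hj => ?_, ?_, ?_, fun j hj hc => ?_⟩
    · have := (h (j + 2) (by omega) (by omega)).1
        (by simpa [show j + 2 - 1 = j + 1 from rfl] using hc)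
      omega
    · have : j = 0 ∨ j = 1 := by omega
      rcases this with rfl | rfl
      · simpa using h0.1
      · simpa [show p + (1 + 1) = p + 2 from rfl] using h0.2
    · rcases Nat.eq_zero_or_pos p with h1 | h1
      · exact Or.inl h1
      · right
        have h2 := hne (p - 1) p (by omega) (by omega) (by omega)
        by_contra h3
        have := (h (p + 1) (by omega) (by omega)).1
          ⟨by rw [show p + 1 - 1 = p from rfl, show p + 1 - 2 = p - 1 by omega]; omega, by
            rw [show p + 1 - 1 = p from rfl]; exact h0.1⟩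
        omega
    · rcases Nat.eq_zero_or_pos q with h1 | h1
      · exact Or.inl h1
      · right
        have h2 := hne (p + 2) (p + 3) (by omega) (by omega) (by omega)
        by_contra h3
        rw [show p + 3 - 1 = p + 2 from rfl] at h3
        have := (h (p + 3) (by omega) (by omega)).1
          ⟨by rw [show p + 3 - 1 = p + 2 from rfl, show p + 3 - 2 = p + 1 from rfl]; exact h0.2, by
            rw [show p + 3 - 1 = p + 2 from rfl]; omega⟩
        omega
    · have := (h (p + 3 + j + 2) (by omega) (by omega)).1 hc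
      omega
  · rintro ⟨h1, h2, h3, h4, h5⟩ j hj hjn
    have d0 := h2 0 (by omega)
    have d1 := h2 1 (by omega)
    simp only [add_zero, zero_add, show p + (1 + 1) = p + 2 from rfl] at d0 d1
    rw [show p + 3 - 1 = p + 2 from rfl] at h4
    constructor
    · rintro ⟨c1, c2⟩
      by_contra hne'
      rcases Nat.lt_trichotomy j (p + 1) with h6 | h6 | h6
      · obtain ⟨j', rfl⟩ : ∃ j', j = j' + 2 := ⟨j - 2, by omega⟩
        rcases Nat.lt_or_ge (j' + 2) p with h7 | h7
        · exact h1 j' h7 (by simpa [show j' + 2 - 1 = j' + 1 from rfl] using ⟨c1, c2⟩)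
        · have : j' + 2 = p := by omega
          subst this
          rcases h3 with h3 | h3
          · omega
          · omega
      · subst h6
        rcases h3 with h3 | h3
        · omega
        · rw [show p + 1 - 1 = p from rfl, show p + 1 - 2 = p - 1 by omega] at c1
          omega
      · rcases Nat.lt_or_ge j (p + 3) with h7 | h7
        · omega
        · obtain ⟨j', rfl⟩ : ∃ j', j = p + 3 + j' := ⟨j - (p + 3), by omega⟩
          rcases j' with _ | _ | j'
          · rcases h4 with h4 | h4
            · omega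
            · rw [show p + 3 + 0 - 1 = p + 2 from rfl, show p + 3 + 0 = p + 3 from rfl] at c2
              omega
          · rcases h4 with h4 | h4
            · omega
            · rw [show p + 3 + (0 + 1) - 1 = p + 3 from rfl,
                show p + 3 + (0 + 1) - 2 = p + 2 from rfl] at c1
              omega
          · exact h5 j' (by omega) ⟨c1, c2⟩
    · rintro rfl
      exact ⟨d0, d1⟩

theorem cnt_OneDD {n i : ℕ} (hi : 2 ≤ i) (hin : i + 1 ≤ n) :
    cnt n (OneDD n i) / (n.factorial : ℝ) =
      ∑ a ∈ range (i - 1), ∑ b ∈ range (n - i),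
        uu a * uu b * (ee (i - 2 - a) * ee (n - i - 1 - b) / ((3 + a + b).factorial : ℝ)) := by
  rw [cnt_congr (fun w => oneDD_iff hi hin w), cnt_JJ (i - 2) 3 (n - i - 1) n (by omega) (by omega),
    show i - 2 + 1 = i - 1 by omega, show n - i - 1 + 1 = n - i by omega]

end Pool.Agent.H43.DD
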