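import Pool.Agent.H43.DD.Expand

/-!
The antisymmetric kernel and the difference of two consecutive double descent counts.
-/

set_option autoImplicit false

namespace Pool.Agent.H43.DD

open Finset

/-- The antisymmetric kernel `χ(c - d)`. -/
noncomputable def vv (c d : ℕ) : ℝ := uu (c + 2) * uu d - uu c * uu (d + 2)

theorem vv_swap (c d : ℕ) : vv d c = - vv c d := by unfold vv; ring

theorem abs_vv_le (c d : ℕ) : |vv c d| ≤ 1 := by
  unfold vv uu
  have h1 : c % 3 = 0 ∨ c % 3 = 1 ∨ c % 3 = 2 := by omega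
  have h2 : d % 3 = 0 ∨ d % 3 = 1 ∨ d % 3 = 2 := by omega
  have e : ∀ n : ℕ, (n + 2) % 3 = if n % 3 = 0 then 2 else if n % 3 = 1 then 0 else 1 := by
    intro n; split_ifs <;> omega
  rw [e c, e d]
  rcases h1 with h1 | h1 | h1 <;> rcases h2 with h2 | h2 | h2 <;> simp [h1, h2]

/-- Difference of the normalized counts with double descent at `p + 1` and `p + 2`. -/
noncomputable def Dr (p q : ℕ) : ℝ := ∑ c ∈ range (p + 1), ∑ d ∈ range (q + 1),
  vv c d * (ee (p - c) * ee (q - d) / ((c + d + 2).factorial : ℝ))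

theorem cnt_diff {n i : ℕ} (hi : 2 ≤ i) (hin : i + 2 ≤ n) :
    cnt n (OneDD n i) / (n.factorial : ℝ) - cnt n (OneDD n (i + 1)) / (n.factorial : ℝ) =
      Dr (i - 1) (n - i - 1) := by
  rw [cnt_OneDD hi (by omega), cnt_OneDD (show 2 ≤ i + 1 by omega) (by omega)]
  obtain ⟨p, rfl⟩ : ∃ p, i = p + 2 := ⟨i - 2, by omega⟩
  obtain ⟨q, rfl⟩ : ∃ q, n = p + 4 + q := ⟨n - (p + 4), by omega⟩
  rw [show p + 2 - 1 = p + 1 from rfl, show p + 4 + q - (p + 2) = q + 2 by omega,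
    show p + 2 + 1 - 1 = p + 2 from rfl, show p + 4 + q - (p + 2 + 1) = q + 1 by omega,
    show q + 2 - 1 = q + 1 from rfl, show p + 2 - 2 = p from rfl,
    show p + 2 + 1 - 2 = p + 1 from rfl, show q + 1 - 1 = q from rfl]
  unfold Dr vv
  have e1 : ∑ c ∈ range (p + 1 + 1), ∑ d ∈ range (q + 1 + 1),
      uu (c + 2) * uu d * (ee (p + 1 - c) * ee (q + 1 - d) / ((c + d + 2).factorial : ℝ)) =
      ∑ a ∈ range (p + 1), ∑ b ∈ range (q + 2),
        uu a * uu b * (ee (p - a) * ee (q + 1 - b) / ((3 + a + b).factorial : ℝ)) := by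
    rw [Finset.sum_range_succ']
    have h0 : ∑ d ∈ range (q + 1 + 1), uu (0 + 2) * uu d *
        (ee (p + 1 - 0) * ee (q + 1 - d) / ((0 + d + 2).factorial : ℝ)) = 0 := by
      refine Finset.sum_eq_zero (fun d _ => ?_)
      rw [show 0 + 2 = 2 from rfl, uu_two]; ring
    rw [h0, add_zero]
    refine Finset.sum_congr rfl (fun a _ => Finset.sum_congr rfl (fun b _ => ?_))
    rw [show a + 1 + 2 = a + 3 from rfl, uu_add_three, show p + 1 - (a + 1) = p - a by omega,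
      show a + 1 + b + 2 = 3 + a + b by omega]
  have e2 : ∑ c ∈ range (p + 1 + 1), ∑ d ∈ range (q + 1 + 1),
      uu c * uu (d + 2) * (ee (p + 1 - c) * ee (q + 1 - d) / ((c + d + 2).factorial : ℝ)) =
      ∑ a ∈ range (p + 2), ∑ b ∈ range (q + 1),
        uu a * uu b * (ee (p + 1 - a) * ee (q - b) / ((3 + a + b).factorial : ℝ)) := by
    refine Finset.sum_congr rfl (fun a _ => ?_)
    rw [Finset.sum_range_succ']
    rw [show 0 + 2 = 2 from rfl, uu_two, mul_zero, zero_mul, add_zero]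
    refine Finset.sum_congr rfl (fun b _ => ?_)
    rw [show b + 1 + 2 = b + 3 from rfl, uu_add_three, show q + 1 - (b + 1) = q - b by omega,
      show a + (b + 1) + 2 = 3 + a + b by omega]
  rw [← e1, ← e2]
  simp only [← Finset.sum_sub_distrib]
  refine Finset.sum_congr rfl (fun a _ => Finset.sum_congr rfl (fun b _ => ?_))
  ring

/-- The weighted kernel. -/
noncomputable def ka (c d : ℕ) : ℝ := vv c d * rho ^ (c + d) / ((c + d + 2).factorial : ℝ)

theorem ka_swap (c d : ℕ) : ka d c = - ka c d := by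
  unfold ka; rw [vv_swap, add_comm d c]; ring

noncomputable def Wt (x : ℝ) (c : ℕ) : ℝ := (x * rho) ^ c / ((c + 1).factorial : ℝ)

noncomputable def Phi (x : ℝ) : ℝ := (Real.exp (x * rho) - 1) / (x * rho)

theorem hasSum_Wt {x : ℝ} (hx : 0 < x) : HasSum (Wt x) (Phi x) := by
  have hr := rho_pos
  have h := hasSum_rexp (x * rho)
  have h1 : HasSum (fun n : ℕ => (x * rho) ^ (n + 1) / ((n + 1).factorial : ℝ))
      (Real.exp (x * rho) - 1) := by
    have := (hasSum_nat_add_iff' 1).2 h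
    simpa using this
  have h2 := h1.mul_left (1 / (x * rho))
  unfold Phi
  convert! h2 using 1
  · funext n
    unfold Wt
    rw [pow_succ]
    field_simp
  · ring

theorem Wt_nonneg {x : ℝ} (hx : 0 ≤ x) (c : ℕ) : 0 ≤ Wt x c := by
  have hr := rho_pos
  unfold Wt; positivity

theorem fact_le (c d : ℕ) : 2 * ((c + 1).factorial * (d + 1).factorial) ≤ (c + d + 2).factorial := by
  have h1 := Nat.add_choose_mul_factorial_mul_factorial (c + 1) (d + 1)
  have h2 : 2 ≤ (c + 1 + (d + 1)).choose (d + 1) := by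
    rw [show c + 1 + (d + 1) = (c + d + 1) + 1 by ring, Nat.choose_succ_succ']
    have a1 : 0 < (c + d + 1).choose d := Nat.choose_pos (by omega)
    have a2 : 0 < (c + d + 1).choose (d + 1) := Nat.choose_pos (by omega)
    omega
  rw [show c + d + 2 = c + 1 + (d + 1) by ring, ← h1, mul_assoc]
  exact Nat.mul_le_mul_right _ h2

theorem ka_le (c d : ℕ) {x y : ℝ} (hx : 0 ≤ x) (hy : 0 ≤ y) :
    |ka c d| * (x ^ c * y ^ d) ≤ 1 / 2 * (Wt x c * Wt y d) := by
  have hr := rho_pos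
  unfold ka Wt
  rw [abs_div, abs_mul, abs_of_nonneg (show (0 : ℝ) ≤ rho ^ (c + d) by positivity),
    abs_of_nonneg (show (0 : ℝ) ≤ ((c + d + 2).factorial : ℝ) by positivity)]
  have h1 : (2 * (((c + 1).factorial : ℝ) * ((d + 1).factorial : ℝ))) ≤
      ((c + d + 2).factorial : ℝ) := by exact_mod_cast fact_le c d
  have e : 1 / 2 * ((x * rho) ^ c / ((c + 1).factorial : ℝ) * ((y * rho) ^ d /
      ((d + 1).factorial : ℝ))) = (x * rho) ^ c * (y * rho) ^ d /
        (2 * (((c + 1).factorial : ℝ) * ((d + 1).factorial : ℝ))) := by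
    field_simp
  rw [e]
  have e2 : |vv c d| * rho ^ (c + d) / ((c + d + 2).factorial : ℝ) * (x ^ c * y ^ d) =
      |vv c d| * ((x * rho) ^ c * (y * rho) ^ d / ((c + d + 2).factorial : ℝ)) := by
    rw [pow_add, mul_pow, mul_pow]; ring
  rw [e2]
  calc |vv c d| * ((x * rho) ^ c * (y * rho) ^ d / ((c + d + 2).factorial : ℝ))
      ≤ 1 * ((x * rho) ^ c * (y * rho) ^ d / ((c + d + 2).factorial : ℝ)) :=
        mul_le_mul_of_nonneg_right (abs_vv_le c d) (by positivity)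
    _ ≤ _ := by
        rw [one_mul]
        exact div_le_div_of_nonneg_left (by positivity) (by positivity) h1

theorem ka_sum {A B : ℕ → ℝ} {α β x y : ℝ} (hα : 0 ≤ α) (hβ : 0 ≤ β) (hx : 0 < x) (hy : 0 < y)
    (hA : ∀ c, |A c| ≤ α * x ^ c) (hB : ∀ d, |B d| ≤ β * y ^ d) :
    Summable (fun p : ℕ × ℕ => ka p.1 p.2 * (A p.1 * B p.2)) ∧
    |∑' p : ℕ × ℕ, ka p.1 p.2 * (A p.1 * B p.2)| ≤ α * β / 2 * (Phi x * Phi y) := by
  have hW : Summable (fun p : ℕ × ℕ => Wt x p.1 * Wt y p.2) :=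
    Summable.mul_of_nonneg (hasSum_Wt hx).summable (hasSum_Wt hy).summable
      (fun c => Wt_nonneg hx.le c) (fun d => Wt_nonneg hy.le d)
  have hWs : ∑' p : ℕ × ℕ, Wt x p.1 * Wt y p.2 = Phi x * Phi y := by
    rw [← (hasSum_Wt hx).tsum_eq, ← (hasSum_Wt hy).tsum_eq]
    exact ((hasSum_Wt hx).summable.tsum_mul_tsum (hasSum_Wt hy).summable hW).symm
  have hb : ∀ p : ℕ × ℕ, |ka p.1 p.2 * (A p.1 * B p.2)| ≤ α * β / 2 * (Wt x p.1 * Wt y p.2) := by
    intro p
    rw [abs_mul, abs_mul]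
    calc |ka p.1 p.2| * (|A p.1| * |B p.2|)
        ≤ |ka p.1 p.2| * ((α * x ^ p.1) * (β * y ^ p.2)) := by
          apply mul_le_mul_of_nonneg_left _ (abs_nonneg _)
          exact mul_le_mul (hA _) (hB _) (abs_nonneg _) (by positivity)
      _ = α * β * (|ka p.1 p.2| * (x ^ p.1 * y ^ p.2)) := by ring
      _ ≤ α * β * (1 / 2 * (Wt x p.1 * Wt y p.2)) :=
          mul_le_mul_of_nonneg_left (ka_le _ _ hx.le hy.le) (by positivity)
      _ = _ := by ring
  have hs : Summable (fun p : ℕ × ℕ => |ka p.1 p.2 * (A p.1 * B p.2)|) :=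
    Summable.of_nonneg_of_le (fun _ => abs_nonneg _) hb (hW.mul_left _)
  refine ⟨hs.of_abs, ?_⟩
  calc _ ≤ ∑' p : ℕ × ℕ, |ka p.1 p.2 * (A p.1 * B p.2)| := by
        have := norm_tsum_le_tsum_norm (f := fun p : ℕ × ℕ => ka p.1 p.2 * (A p.1 * B p.2))
          (by simpa using hs)
        simpa using this
    _ ≤ ∑' p : ℕ × ℕ, α * β / 2 * (Wt x p.1 * Wt y p.2) := hs.tsum_le_tsum hb (hW.mul_left _)
    _ = _ := by rw [tsum_mul_left, hWs]

theorem ka_antisymm (A B : ℕ → ℝ) :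
    ∑' p : ℕ × ℕ, ka p.1 p.2 * (A p.1 * B p.2) = - ∑' p : ℕ × ℕ, ka p.1 p.2 * (B p.1 * A p.2) := by
  rw [← (Equiv.prodComm ℕ ℕ).tsum_eq (fun p : ℕ × ℕ => ka p.1 p.2 * (A p.1 * B p.2)), ← tsum_neg]
  refine tsum_congr (fun p => ?_)
  simp only [Equiv.prodComm_apply, Prod.fst_swap, Prod.snd_swap]
  rw [ka_swap]; ring

/-- Zero extension of the normalized coefficients. -/
noncomputable def Ex (p c : ℕ) : ℝ := if c ≤ p then EE (p - c) else 0

/-- The two leading terms. -/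
noncomputable def GG (p c : ℕ) : ℝ := CC + C1 * ((-2) ^ c * (-1 / 2) ^ p)

theorem CC_pos : 0 < CC := Real.exp_pos _
theorem C1_pos : 0 < C1 := by unfold C1; positivity
theorem BB_pos : 0 < BB := by unfold BB; positivity

theorem CC_add_C1_le : CC + C1 ≤ BB := by
  unfold CC C1 BB
  have hr := rho_pos
  have h1 : Real.exp (rho / 2) ≤ Real.exp (2 * rho) := Real.exp_le_exp.2 (by linarith)
  have h2 : Real.exp (-rho) ≤ Real.exp (2 * rho) := Real.exp_le_exp.2 (by linarith)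
  linarith [Real.exp_pos (2 * rho)]

theorem Ex_sub_GG (p c : ℕ) : |Ex p c - GG p c| ≤ BB * (1 / 4) ^ p * 4 ^ c := by
  unfold Ex GG
  rcases Nat.lt_or_ge p c with h | h
  · have h' : ¬ c ≤ p := by omega
    simp only [h', if_false]
    rw [← pow_split' h.le (-1 / 2) (-2) (by norm_num), mul_assoc, mul_comm ((1 / 4 : ℝ) ^ p),
      ← pow_split' h.le (1 / 4) 4 (by norm_num)]
    obtain ⟨d, hd⟩ : ∃ d, c - p = d := ⟨_, rfl⟩
    rw [hd, zero_sub, abs_neg]
    have a1 : |CC + C1 * (-2) ^ d| ≤ CC + C1 * 2 ^ d := by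
      calc _ ≤ |CC| + |C1 * (-2) ^ d| := abs_add_le _ _
        _ = _ := by
          rw [abs_of_pos CC_pos, abs_mul, abs_of_pos C1_pos, abs_pow]; norm_num
    have a2 : (2 : ℝ) ^ d ≤ 4 ^ d := pow_le_pow_left₀ (by norm_num) (by norm_num) _
    have a3 : (1 : ℝ) ≤ 4 ^ d := one_le_pow₀ (by norm_num)
    have := CC_add_C1_le
    nlinarith [CC_pos, C1_pos]
  · simp only [h, if_true]
    rw [← pow_split h (-1 / 2) (-2) (by norm_num), mul_assoc, mul_comm ((1 / 4 : ℝ) ^ p),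
      ← pow_split h (1 / 4) 4 (by norm_num)]
    have := EE_bound (p - c)
    rw [show EE (p - c) - (CC + C1 * (-1 / 2) ^ (p - c)) = EE (p - c) - CC - C1 * (-1 / 2) ^ (p - c)
      by ring]
    exact this

theorem GG_le (p c : ℕ) : |GG p c| ≤ (CC + C1) * 2 ^ c := by
  unfold GG
  have a0 : |((-2 : ℝ)) ^ c * (-1 / 2) ^ p| ≤ 2 ^ c := by
    rw [abs_mul, abs_pow, abs_pow]
    have e1 : |(-2 : ℝ)| = 2 := by norm_num
    have e2 : |(-1 / 2 : ℝ)| = 1 / 2 := by norm_num [abs_div]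
    rw [e1, e2]
    exact mul_le_of_le_one_right (by positivity) (pow_le_one₀ (by norm_num) (by norm_num))
  calc |CC + C1 * ((-2) ^ c * (-1 / 2) ^ p)| ≤ |CC| + |C1 * ((-2) ^ c * (-1 / 2) ^ p)| :=
        abs_add_le _ _
    _ = CC + C1 * |(-2) ^ c * (-1 / 2) ^ p| := by
        rw [abs_of_pos CC_pos, abs_mul, abs_of_pos C1_pos]
    _ ≤ CC * 2 ^ c + C1 * 2 ^ c := by
        have h1 : (1 : ℝ) ≤ 2 ^ c := one_le_pow₀ (by norm_num)
        have := CC_pos; have := C1_pos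
        nlinarith
    _ = _ := by ring

/-- The normalized difference as a sum over all pairs. -/
theorem Dr_eq (p q : ℕ) : rho ^ (p + q + 2) * Dr p q =
    ∑' r : ℕ × ℕ, ka r.1 r.2 * (Ex p r.1 * Ex q r.2) := by
  rw [tsum_eq_sum (s := range (p + 1) ×ˢ range (q + 1))]
  · rw [Finset.sum_product]
    unfold Dr
    rw [Finset.mul_sum]
    refine Finset.sum_congr rfl (fun c hc => ?_)
    rw [Finset.mul_sum]
    refine Finset.sum_congr rfl (fun d hd => ?_)
    have hc' : c ≤ p := by simpa [Nat.lt_succ_iff] using hc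
    have hd' : d ≤ q := by simpa [Nat.lt_succ_iff] using hd
    simp only [Ex, hc', hd', if_true]
    unfold ka EE
    have e : rho ^ (p + q + 2) = rho ^ (c + d) * rho ^ (p - c + 1) * rho ^ (q - d + 1) := by
      rw [← pow_add, ← pow_add]; congr 1; omega
    rw [e]; ring
  · intro r hr
    have : ¬ (r.1 ≤ p ∧ r.2 ≤ q) := by
      intro h
      apply hr
      simp only [Finset.mem_product, Finset.mem_range]
      omega
    rw [not_and_or] at this
    rcases this with h | h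
    · simp [Ex, h]
    · simp [Ex, h]

/-- The main coefficient. -/
noncomputable def k0 : ℝ := CC * C1 * ∑' r : ℕ × ℕ, ka r.1 r.2 * ((-2) ^ r.1 * 1)

theorem GG_part (p q : ℕ) : Summable (fun r : ℕ × ℕ => ka r.1 r.2 * (GG p r.1 * GG q r.2)) ∧
    ∑' r : ℕ × ℕ, ka r.1 r.2 * (GG p r.1 * GG q r.2) =
    k0 * ((-1 / 2) ^ p - (-1 / 2) ^ q) := by
  have b1 : ∀ c : ℕ, |(1 : ℝ)| ≤ 1 * 2 ^ c := fun c => by
    rw [abs_one, one_mul]; exact one_le_pow₀ (by norm_num)
  have b2 : ∀ c : ℕ, |(-2 : ℝ) ^ c| ≤ 1 * 2 ^ c := fun c => by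
    rw [abs_pow, one_mul]; norm_num
  have s1 := (ka_sum (A := fun _ => 1) (B := fun _ => 1) zero_le_one zero_le_one two_pos two_pos
    b1 b1).1
  have s2 := (ka_sum (A := fun c => (-2) ^ c) (B := fun _ => 1) zero_le_one zero_le_one two_pos
    two_pos b2 b1).1
  have s3 := (ka_sum (A := fun _ => 1) (B := fun c => (-2) ^ c) zero_le_one zero_le_one two_pos
    two_pos b1 b2).1
  have s4 := (ka_sum (A := fun c => (-2) ^ c) (B := fun c => (-2) ^ c) zero_le_one zero_le_one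
    two_pos two_pos b2 b2).1
  have a1 := ka_antisymm (fun _ => 1) (fun _ => 1)
  have a2 := ka_antisymm (fun _ => 1) (fun c => (-2) ^ c)
  have a4 := ka_antisymm (fun c => (-2) ^ c) (fun c => (-2) ^ c)
  have z1 : ∑' r : ℕ × ℕ, ka r.1 r.2 * ((1 : ℝ) * 1) = 0 := by linarith
  have z4 : ∑' r : ℕ × ℕ, ka r.1 r.2 * ((-2 : ℝ) ^ r.1 * (-2) ^ r.2) = 0 := by linarith
  have h := (((s1.hasSum.mul_left (CC * CC)).add
    (s2.hasSum.mul_left (C1 * (-1 / 2) ^ p * CC))).add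
    (s3.hasSum.mul_left (CC * C1 * (-1 / 2) ^ q))).add
    (s4.hasSum.mul_left (C1 * (-1 / 2) ^ p * (C1 * (-1 / 2) ^ q)))
  have e : ∀ r : ℕ × ℕ, ka r.1 r.2 * (GG p r.1 * GG q r.2) =
      CC * CC * (ka r.1 r.2 * ((1 : ℝ) * 1)) +
      C1 * (-1 / 2) ^ p * CC * (ka r.1 r.2 * ((-2) ^ r.1 * 1)) +
      CC * C1 * (-1 / 2) ^ q * (ka r.1 r.2 * (1 * (-2) ^ r.2)) +
      C1 * (-1 / 2) ^ p * (C1 * (-1 / 2) ^ q) * (ka r.1 r.2 * ((-2) ^ r.1 * (-2) ^ r.2)) := by
    intro r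
    unfold GG; ring
  simp only [e]
  refine ⟨h.summable, ?_⟩
  rw [h.tsum_eq, z1, z4, a2]
  unfold k0
  ring

/-- The error of the main term. -/
theorem main_error {p q : ℕ} {M : ℝ} (hM : ∀ c, |Ex q c| ≤ M) (hM0 : 0 ≤ M) :
    |rho ^ (p + q + 2) * Dr p q - k0 * ((-1 / 2) ^ p - (-1 / 2) ^ q)| ≤
      BB * (1 / 4) ^ p * M / 2 * (Phi 4 * Phi 1) +
      (CC + C1) * (BB * (1 / 4) ^ q) / 2 * (Phi 2 * Phi 4) := by
  obtain ⟨g1, g2⟩ := GG_part p q
  have hB := BB_pos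
  have hC := CC_pos
  have hC1 := C1_pos
  obtain ⟨s1, b1⟩ := ka_sum (A := fun c => Ex p c - GG p c) (B := fun d => Ex q d)
    (α := BB * (1 / 4) ^ p) (β := M) (x := 4) (y := 1) (by positivity) hM0 (by norm_num)
    (by norm_num) (fun c => Ex_sub_GG p c) (fun d => by rw [one_pow, mul_one]; exact hM d)
  obtain ⟨s2, b2⟩ := ka_sum (A := fun c => GG p c) (B := fun d => Ex q d - GG q d)
    (α := CC + C1) (β := BB * (1 / 4) ^ q) (x := 2) (y := 4) (by positivity) (by positivity)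
    (by norm_num) (by norm_num) (fun c => GG_le p c) (fun d => Ex_sub_GG q d)
  have h := (g1.hasSum.add s1.hasSum).add s2.hasSum
  have e : ∀ r : ℕ × ℕ, ka r.1 r.2 * (Ex p r.1 * Ex q r.2) =
      ka r.1 r.2 * (GG p r.1 * GG q r.2) + ka r.1 r.2 * ((Ex p r.1 - GG p r.1) * Ex q r.2) +
      ka r.1 r.2 * (GG p r.1 * (Ex q r.2 - GG q r.2)) := by
    intro r; ring
  rw [Dr_eq]
  simp only [e]
  rw [h.tsum_eq, g2]
  rw [show ∀ a b c : ℝ, a + b + c - a = b + c by intros; ring]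
  exact (abs_add_le _ _).trans (add_le_add b1 b2)

/-- Comparison for fixed `p`. -/
theorem fixed_error {p q q' : ℕ} {M δ : ℝ} (hM : ∀ c, |Ex p c| ≤ M) (hM0 : 0 ≤ M) (hδ : 0 ≤ δ)
    (hd : |((-1 / 2 : ℝ)) ^ q - (-1 / 2) ^ q'| ≤ δ) :
    |rho ^ (p + q + 2) * Dr p q - rho ^ (p + q' + 2) * Dr p q'| ≤
      M * (BB * (1 / 4) ^ q + BB * (1 / 4) ^ q') / 2 * (Phi 1 * Phi 4) +
      M * (C1 * δ) / 2 * (Phi 1 * Phi 2) := by
  have hB := BB_pos
  have hC := CC_pos
  have hC1 := C1_pos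
  have bM : ∀ c, |Ex p c| ≤ M * 1 ^ c := fun c => by rw [one_pow, mul_one]; exact hM c
  obtain ⟨s1, b1⟩ := ka_sum (A := fun c => Ex p c)
    (B := fun d => (Ex q d - GG q d) - (Ex q' d - GG q' d))
    (α := M) (β := BB * (1 / 4) ^ q + BB * (1 / 4) ^ q') (x := 1) (y := 4) hM0 (by positivity)
    (by norm_num) (by norm_num) bM (fun d => by
      refine (abs_sub _ _).trans ?_
      have h1 := Ex_sub_GG q d
      have h2 := Ex_sub_GG q' d
      rw [add_mul]; exact add_le_add h1 h2)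
  obtain ⟨s2, b2⟩ := ka_sum (A := fun c => Ex p c) (B := fun d => GG q d - GG q' d)
    (α := M) (β := C1 * δ) (x := 1) (y := 2) hM0 (by positivity)
    (by norm_num) (by norm_num) bM (fun d => by
      have e : GG q d - GG q' d = C1 * (-2) ^ d * ((-1 / 2) ^ q - (-1 / 2) ^ q') := by
        unfold GG; ring
      rw [e, abs_mul, abs_mul, abs_of_pos hC1, abs_pow]
      have e1 : |(-2 : ℝ)| = 2 := by norm_num
      rw [e1]
      calc C1 * 2 ^ d * |(-1 / 2 : ℝ) ^ q - (-1 / 2) ^ q'| ≤ C1 * 2 ^ d * δ :=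
            mul_le_mul_of_nonneg_left hd (by positivity)
        _ = _ := by ring)
  obtain ⟨s3, -⟩ := ka_sum (A := fun c => Ex p c) (B := fun d => Ex q' d)
    (α := M) (β := BB + (CC + C1)) (x := 1) (y := 4) hM0 (by positivity) (by norm_num)
    (by norm_num) bM (fun d => by
      have h1 := Ex_sub_GG q' d
      have h2 := GG_le q' d
      have h3 : (2 : ℝ) ^ d ≤ 4 ^ d := pow_le_pow_left₀ (by norm_num) (by norm_num) _
      have h4 : (1 / 4 : ℝ) ^ q' ≤ 1 := pow_le_one₀ (by norm_num) (by norm_num)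
      calc |Ex q' d| = |(Ex q' d - GG q' d) + GG q' d| := by ring_nf
        _ ≤ |Ex q' d - GG q' d| + |GG q' d| := abs_add_le _ _
        _ ≤ BB * (1 / 4) ^ q' * 4 ^ d + (CC + C1) * 2 ^ d := add_le_add h1 h2
        _ ≤ BB * 1 * 4 ^ d + (CC + C1) * 4 ^ d := by
            apply add_le_add
            · apply mul_le_mul_of_nonneg_right _ (by positivity)
              exact mul_le_mul_of_nonneg_left h4 hB.le
            · exact mul_le_mul_of_nonneg_left h3 (by positivity)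
        _ = _ := by ring)
  have h := (s1.hasSum.add s2.hasSum).add s3.hasSum
  have e : ∀ r : ℕ × ℕ, ka r.1 r.2 * (Ex p r.1 * Ex q r.2) =
      ka r.1 r.2 * (Ex p r.1 * ((Ex q r.2 - GG q r.2) - (Ex q' r.2 - GG q' r.2))) +
      ka r.1 r.2 * (Ex p r.1 * (GG q r.2 - GG q' r.2)) +
      ka r.1 r.2 * (Ex p r.1 * Ex q' r.2) := by
    intro r; ring
  rw [Dr_eq, Dr_eq]
  simp only [e]
  rw [h.tsum_eq]
  rw [show ∀ a b c : ℝ, a + b + c - c = a + b by intros; ring]
  exact (abs_add_le _ _).trans (add_le_add b1 b2)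

end Pool.Agent.H43.DD
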