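import Pool.Agent.H43.DD.Formula

/-!
The recurrence for the numbers of permutations without double descents.
-/

set_option autoImplicit false

namespace Pool.Agent.H43.DD

open Finset

theorem cnt_nonneg (n : ℕ) (P : (ℕ → ℕ) → Prop) : 0 ≤ cnt n P := by
  classical
  unfold cnt
  exact Finset.sum_nonneg (fun w _ => by split_ifs <;> norm_num)

theorem cnt_le (n : ℕ) (P : (ℕ → ℕ) → Prop) : cnt n P ≤ (n.factorial : ℝ) := by
  classical
  unfold cnt
  calc (∑ w : Equiv.Perm (Fin n), if P (vals w) then (1 : ℝ) else 0)
      ≤ ∑ _w : Equiv.Perm (Fin n), (1 : ℝ) :=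
        Finset.sum_le_sum (fun w _ => by split_ifs <;> norm_num)
    _ = (n.factorial : ℝ) := by simp [Fintype.card_perm]

theorem ee_nonneg (m : ℕ) : 0 ≤ ee m := div_nonneg (cnt_nonneg _ _) (by positivity)

theorem ee_le_one (m : ℕ) : ee m ≤ 1 := by
  unfold ee
  rw [div_le_one (by positivity)]
  exact cnt_le _ _

theorem ee_zero : ee 0 = 1 := by
  classical
  unfold ee cnt
  have : ∀ w : Equiv.Perm (Fin 0), NoDD 0 (vals w) := fun w => noDD_small (by omega) _
  simp [this]

theorem cnt_noDD_pred (m : ℕ) :
    cnt (m + 1) (NoDD m) / ((m + 1).factorial : ℝ) = ee m := by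
  have h := cnt_X3 m 1 0 (m + 1) rfl
  rw [ee_zero] at h
  have h2 : cnt (m + 1) (X3 m 1 0) = cnt (m + 1) (NoDD m) := by
    refine cnt_congr (fun w => ?_)
    unfold X3
    constructor
    · exact fun h => h.1
    · exact fun h => ⟨h, fun j hj => by omega, noDD_small (by omega) _⟩
  rw [h2] at h
  rw [h]; simp

theorem ee_one : ee 1 = 1 := by
  have h := cnt_noDD_pred 0
  rw [ee_zero] at h
  rw [← h]
  unfold ee
  congr 1
  refine cnt_congr (fun w => ?_)
  exact ⟨fun _ => noDD_small (by omega) _, fun _ => noDD_small (by omega) _⟩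

theorem ee_two : ee 2 = 1 := by
  have h := cnt_noDD_pred 1
  rw [ee_one] at h
  rw [← h]
  unfold ee
  congr 1
  refine cnt_congr (fun w => ?_)
  exact ⟨fun _ => noDD_small (by omega) _, fun _ => noDD_small (by omega) _⟩

theorem ee_succ (m : ℕ) : ee (m + 3) =
    ee (m + 2) - ∑ a ∈ range (m + 1), uu a * (ee (m - a) / ((a + 3).factorial : ℝ)) := by
  have h1 := cnt_noDD_pred (m + 2)
  have h2 := cnt_JJ m 3 0 (m + 3) (by omega) rfl
  have h3 : cnt (m + 3) (NoDD (m + 2)) = cnt (m + 3) (NoDD (m + 3)) + cnt (m + 3) (JJ m 3 0) := by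
    refine cnt_add2 (fun w => ?_) (fun w => ?_)
    · rw [noDD_succ]
      unfold JJ
      have hd : Dec 3 (sh m (vals w)) ↔
          (vals w (m + 1) < vals w m ∧ vals w (m + 2) < vals w (m + 1)) := by
        unfold Dec sh
        constructor
        · intro h
          exact ⟨h 0 (by omega), h 1 (by omega)⟩
        · rintro ⟨h0, h1⟩ j hj
          have : j = 0 ∨ j = 1 := by omega
          rcases this with rfl | rfl
          · exact h0
          · exact h1
      rw [hd]
      have hz : NoDD 0 (sh (m + 3) (vals w)) := noDD_small (by omega) _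
      simp only [hz, true_or, and_true]
      rcases m with _ | m
      · have a0 := noDD_small (show 0 + 2 ≤ 2 by omega) (vals w)
        have a1 := noDD_small (show 0 ≤ 2 by omega) (vals w)
        simp only [a0, a1, true_or, and_true, true_and]
        tauto
      · have hne : vals w m ≠ vals w (m + 1) := fun h => by
          have := vals_inj w (show m < m + 1 + 3 by omega) (show m + 1 < m + 1 + 3 by omega) h
          omega
        rw [show m + 1 + 2 = m + 3 from rfl, noDD_succ]
        rw [show m + 1 + 1 = m + 2 from rfl, show m + 1 - 1 = m from rfl]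
        simp only [show m + 1 ≠ 0 by omega, false_or]
        constructor
        · rintro ⟨h4, h5⟩
          by_cases h6 : vals w (m + 2) < vals w (m + 1) ∧ vals w (m + 3) < vals w (m + 2)
          · right
            have h7 : vals w m < vals w (m + 1) := by
              by_contra h8
              exact h5 ⟨by omega, h6.1⟩
            refine ⟨?_, h6, h7⟩
            intro j hj
            exact h4 j (by omega)
          · exact Or.inl ⟨⟨h4, h5⟩, h6⟩
        · rintro (h4 | ⟨h4, h5, h6⟩)
          · exact h4.1
          · refine ⟨?_, fun h7 => by have := h7.1; omega⟩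
            rcases m with _ | m
            · exact noDD_small (by omega) _
            · rw [show m + 1 + 2 = m + 3 from rfl, noDD_succ]
              refine ⟨h4, fun h7 => ?_⟩
              have h8 : vals w (m + 1) < vals w (m + 2) := h6
              have := h7.2
              omega
    · intro h4 h5
      have hd := h5.2.1
      exact h4 m (by omega) ⟨hd 0 (by omega), hd 1 (by omega)⟩
  have h4 : ee (m + 3) = ee (m + 2) - cnt (m + 3) (JJ m 3 0) / ((m + 3).factorial : ℝ) := by
    rw [← h1, show m + 2 + 1 = m + 3 from rfl, h3]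
    unfold ee; ring
  rw [h4, h2]
  congr 1
  refine Finset.sum_congr rfl (fun a _ => ?_)
  simp only [zero_add, Finset.sum_range_one, uu_zero, ee_zero, Nat.sub_zero, add_zero, mul_one]
  rw [add_comm 3 a]

/-- `∑ uu j x^j / j!` is the inverse of `∑ ee m x^m`. -/
theorem ee_conv (m : ℕ) : ∑ j ∈ range (m + 1), uu j / (j.factorial : ℝ) * ee (m - j) =
    if m = 0 then 1 else 0 := by
  rcases m with _ | _ | _ | m
  · simp [uu_zero, ee_zero]
  · simp [Finset.sum_range_succ, uu_zero, uu_one, ee_zero, ee_one]
  · simp [Finset.sum_range_succ, uu_zero, uu_one, uu_two, ee_two, ee_one]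
  · rw [Finset.sum_range_succ', Finset.sum_range_succ', Finset.sum_range_succ']
    simp only [zero_add, uu_zero, uu_one, show (1 + 1 : ℕ) = 2 from rfl, uu_two, Nat.sub_zero,
      Nat.factorial, show m + 1 + 1 + 1 = m + 3 from rfl]
    rw [ee_succ m]
    have e : ∑ a ∈ range (m + 1), uu (a + 1 + 1 + 1) / ((a + 1 + 1 + 1).factorial : ℝ) *
        ee (m + 3 - (a + 1 + 1 + 1)) =
        ∑ a ∈ range (m + 1), uu a * (ee (m - a) / ((a + 3).factorial : ℝ)) := by
      refine Finset.sum_congr rfl (fun a _ => ?_)
      rw [show a + 1 + 1 + 1 = a + 3 from rfl, uu_add_three,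
        show m + 3 - (a + 3) = m - a by omega]
      ring
    simp only [Nat.factorial] at e ⊢
    rw [e, show m + 3 - 1 = m + 2 from rfl]
    simp
    ring

end Pool.Agent.H43.DD
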