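import Pool.Agent.H43.DD.Split

/-!
Permutations without double descents, and with exactly one prescribed double descent.
-/

set_option autoImplicit false

namespace Pool.Agent.H43.DD

open Finset

/-- No double descent among the first `m` values. -/
def NoDD (m : ℕ) (f : ℕ → ℕ) : Prop := ∀ j, j + 2 < m → ¬ (f (j + 1) < f j ∧ f (j + 2) < f (j + 1))

/-- The first `k` values are decreasing. -/
def Dec (k : ℕ) (f : ℕ → ℕ) : Prop := ∀ j, j + 1 < k → f (j + 1) < f j

/-- Shift. -/
def sh (p : ℕ) (f : ℕ → ℕ) : ℕ → ℕ := fun j => f (p + j)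

theorem inv_NoDD (m : ℕ) : Inv m (NoDD m) := by
  intro f g h
  unfold NoDD
  refine forall_congr' (fun j => ?_)
  constructor
  · intro H hj
    rw [← h (j + 1) (by omega) j (by omega), ← h (j + 2) (by omega) (j + 1) (by omega)]
    exact H hj
  · intro H hj
    rw [h (j + 1) (by omega) j (by omega), h (j + 2) (by omega) (j + 1) (by omega)]
    exact H hj

theorem inv_Dec (k : ℕ) : Inv k (Dec k) := by
  intro f g h
  unfold Dec
  refine forall_congr' (fun j => ?_)
  constructor
  · intro H hj
    rw [← h (j + 1) (by omega) j (by omega)]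
    exact H hj
  · intro H hj
    rw [h (j + 1) (by omega) j (by omega)]
    exact H hj

theorem Inv.mono {m n : ℕ} (h : m ≤ n) {P : (ℕ → ℕ) → Prop} (hP : Inv m P) : Inv n P :=
  fun f g H => hP f g (fun i hi j hj => H i (by omega) j (by omega))

theorem Inv.shift {m p : ℕ} {P : (ℕ → ℕ) → Prop} (hP : Inv m P) :
    Inv (p + m) (fun f => P (fun j => f (p + j))) :=
  fun f g H => hP _ _ (fun i hi j hj => H (p + i) (by omega) (p + j) (by omega))

theorem Inv.and {m : ℕ} {P Q : (ℕ → ℕ) → Prop} (hP : Inv m P) (hQ : Inv m Q) :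
    Inv m (fun f => P f ∧ Q f) := fun f g H => by
  simp only [hP f g H, hQ f g H]

/-- There is one decreasing permutation. -/
theorem cnt_Dec (k : ℕ) : cnt k (Dec k) = 1 := by
  classical
  unfold cnt
  have h : ∀ w : Equiv.Perm (Fin k), Dec k (vals w) ↔ w = Fin.revPerm := by
    intro w
    constructor
    · intro hw
      have h1 : StrictAnti (w : Fin k → Fin k) := by
        have h2 : ∀ d i : ℕ, i + d + 1 < k → vals w (i + d + 1) < vals w i := by
          intro d
          induction d with
          | zero => intro i hi; exact hw i (by omega)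
          | succ d ih =>
            intro i hi
            have a := ih i (by omega)
            have b := hw (i + d + 1) (by omega)
            have e : i + (d + 1) + 1 = i + d + 1 + 1 := by ring
            rw [e]; exact b.trans a
        intro a b hab
        have h3 := h2 (b.val - a.val - 1) a.val (by have := a.2; have := b.2; have : a.val < b.val := hab; omega)
        have e : a.val + (b.val - a.val - 1) + 1 = b.val := by
          have : a.val < b.val := hab; omega
        rw [e, vals_lt w b.2, vals_lt w a.2] at h3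
        exact h3
      have h2 : StrictMono ((w : Fin k → Fin k) ∘ Fin.rev) :=
        h1.comp Fin.rev_strictAnti
      have h3 : ((w : Fin k → Fin k) ∘ Fin.rev) = id := by
        refine (h2.range_inj strictMono_id).1 ?_
        rw [Set.range_id, Set.range_eq_univ]
        exact w.surjective.comp Fin.rev_surjective
      ext i
      have h4 := congrFun h3 (Fin.rev i)
      simp only [Function.comp, Fin.rev_rev, id] at h4
      rw [h4]; simp [Fin.revPerm]
    · rintro rfl
      intro j hj
      rw [vals_lt _ (show j + 1 < k from hj), vals_lt _ (show j < k by omega)]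
      simp only [Fin.revPerm_apply, Fin.val_rev]
      omega
  simp only [h]
  simp

/-- Number of permutations without double descents, divided by `m!`. -/
noncomputable def ee (m : ℕ) : ℝ := cnt m (NoDD m) / (m.factorial : ℝ)

/-- Left block without double descents, middle block decreasing, right block without
double descents. -/
def X3 (p k q : ℕ) (f : ℕ → ℕ) : Prop := NoDD p f ∧ Dec k (sh p f) ∧ NoDD q (sh (p + k) f)

theorem cnt_X3 (p k q n : ℕ) (hn : n = p + k + q) :
    cnt n (X3 p k q) / (n.factorial : ℝ) = ee p * ee q / (k.factorial : ℝ) := by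
  subst hn
  have h1 : cnt (p + k + q) (X3 p k q) =
      ((p + k + q).choose (p + k) : ℝ) * (((p + k).choose p : ℝ) * cnt p (NoDD p) * 1) *
        cnt q (NoDD q) := by
    rw [← cnt_Dec k, ← cnt_split p k (NoDD p) (Dec k) (inv_NoDD p) (inv_Dec k)]
    rw [← cnt_split (p + k) q _ (NoDD q) _ (inv_NoDD q)]
    · refine cnt_congr (fun w => ?_)
      unfold X3 sh
      tauto
    · refine Inv.and ((inv_NoDD p).mono (by omega)) ?_
      exact (inv_Dec k).shift
  rw [h1]
  unfold ee
  have h2 : ((p + k + q).choose (p + k) : ℝ) =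
      ((p + k + q).factorial : ℝ) / (((p + k).factorial : ℝ) * (q.factorial : ℝ)) := by
    have := Nat.add_choose_mul_factorial_mul_factorial (p + k) q
    rw [← Nat.choose_symm_add] at this
    rw [eq_div_iff (by positivity)]
    norm_cast
    rw [← this, mul_assoc]
  have h3 : ((p + k).choose p : ℝ) =
      ((p + k).factorial : ℝ) / ((p.factorial : ℝ) * (k.factorial : ℝ)) := by
    have := Nat.add_choose_mul_factorial_mul_factorial p k
    rw [← Nat.choose_symm_add] at this
    rw [eq_div_iff (by positivity)]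
    norm_cast
    rw [← this, mul_assoc]
  rw [h2, h3]
  have := Nat.factorial_ne_zero p
  have := Nat.factorial_ne_zero k
  have := Nat.factorial_ne_zero q
  have := Nat.factorial_ne_zero (p + k)
  have := Nat.factorial_ne_zero (p + k + q)
  field_simp

theorem cnt_add2 {n : ℕ} {P A B : (ℕ → ℕ) → Prop}
    (h : ∀ w : Equiv.Perm (Fin n), (P (vals w) ↔ A (vals w) ∨ B (vals w)))
    (hAB : ∀ w : Equiv.Perm (Fin n), A (vals w) → ¬ B (vals w)) :
    cnt n P = cnt n A + cnt n B := by
  classical
  unfold cnt
  rw [← Finset.sum_add_distrib]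
  refine Finset.sum_congr rfl (fun w _ => ?_)
  have h1 := h w
  have h2 := hAB w
  by_cases a : A (vals w) <;> by_cases b : B (vals w) <;> simp_all

theorem cnt_add3 {n : ℕ} {P A B C : (ℕ → ℕ) → Prop}
    (h : ∀ w : Equiv.Perm (Fin n), (P (vals w) ↔ A (vals w) ∨ B (vals w) ∨ C (vals w)))
    (hAB : ∀ w : Equiv.Perm (Fin n), A (vals w) → ¬ B (vals w))
    (hAC : ∀ w : Equiv.Perm (Fin n), A (vals w) → ¬ C (vals w))
    (hBC : ∀ w : Equiv.Perm (Fin n), B (vals w) → ¬ C (vals w)) :
    cnt n P = cnt n A + cnt n B + cnt n C := by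
  rw [cnt_add2 (P := P) (A := A) (B := fun f => B f ∨ C f) h
    (fun w ha hbc => hbc.elim (hAB w ha) (hAC w ha)), add_assoc]
  congr 1
  exact cnt_add2 (fun w => Iff.rfl) hBC

/-- Left part free, `E` an extra condition. -/
def XL (E : (ℕ → ℕ) → Prop) (p k : ℕ) (f : ℕ → ℕ) : Prop := NoDD p f ∧ Dec k (sh p f) ∧ E f

/-- The decreasing block cannot be extended to the left. -/
def JL (E : (ℕ → ℕ) → Prop) (p k : ℕ) (f : ℕ → ℕ) : Prop :=
  NoDD p f ∧ Dec k (sh p f) ∧ (p = 0 ∨ f (p - 1) < f p) ∧ E f

/-- Right part free, `E` an extra condition. -/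
def XR (E : (ℕ → ℕ) → Prop) (p k q : ℕ) (f : ℕ → ℕ) : Prop :=
  E f ∧ Dec k (sh p f) ∧ NoDD q (sh (p + k) f)

/-- The decreasing block cannot be extended to the right. -/
def JR (E : (ℕ → ℕ) → Prop) (p k q : ℕ) (f : ℕ → ℕ) : Prop :=
  E f ∧ Dec k (sh p f) ∧ (q = 0 ∨ f (p + k - 1) < f (p + k)) ∧ NoDD q (sh (p + k) f)

theorem dec_left {p k : ℕ} {f : ℕ → ℕ} (hk : 1 ≤ k) :
    Dec (k + 1) (sh p f) ↔ f (p + 1) < f p ∧ Dec k (sh (p + 1) f) := by
  unfold Dec sh
  constructor
  · intro h
    refine ⟨by simpa using h 0 (by omega), fun j hj => ?_⟩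
    have := h (j + 1) (by omega)
    rw [show p + 1 + (j + 1) = p + (j + 1 + 1) by ring, show p + 1 + j = p + (j + 1) by ring]
    exact this
  · rintro ⟨h0, h⟩ j hj
    rcases j with _ | j
    · simpa using h0
    · have := h j (by omega)
      rw [show p + 1 + (j + 1) = p + (j + 1 + 1) by ring, show p + 1 + j = p + (j + 1) by ring] at this
      exact this

theorem dec_right {p k : ℕ} {f : ℕ → ℕ} (hk : 1 ≤ k) :
    Dec (k + 1) (sh p f) ↔ f (p + k) < f (p + k - 1) ∧ Dec k (sh p f) := by
  unfold Dec sh
  constructor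
  · intro h
    refine ⟨?_, fun j hj => h j (by omega)⟩
    have := h (k - 1) (by omega)
    rw [show p + (k - 1 + 1) = p + k by omega, show p + (k - 1) = p + k - 1 by omega] at this
    exact this
  · rintro ⟨h0, h⟩ j hj
    rcases Nat.lt_or_ge (j + 1) k with h1 | h1
    · exact h j h1
    · have : j = k - 1 := by omega
      subst this
      rw [show p + (k - 1 + 1) = p + k by omega, show p + (k - 1) = p + k - 1 by omega]
      exact h0

theorem noDD_succ {m : ℕ} {f : ℕ → ℕ} :
    NoDD (m + 3) f ↔ NoDD (m + 2) f ∧ ¬ (f (m + 1) < f m ∧ f (m + 2) < f (m + 1)) := by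
  unfold NoDD
  constructor
  · intro h
    exact ⟨fun j hj => h j (by omega), h m (by omega)⟩
  · rintro ⟨h1, h2⟩ j hj
    rcases Nat.lt_or_ge (j + 2) (m + 2) with h3 | h3
    · exact h1 j h3
    · have : j = m := by omega
      subst this; exact h2

theorem noDD_small {m : ℕ} (hm : m ≤ 2) (f : ℕ → ℕ) : NoDD m f := fun j hj => by omega

theorem noDD_left {q r : ℕ} {f : ℕ → ℕ} :
    NoDD (q + 3) (sh r f) ↔ NoDD (q + 2) (sh (r + 1) f) ∧
      ¬ (f (r + 1) < f r ∧ f (r + 2) < f (r + 1)) := by
  unfold NoDD sh
  constructor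
  · intro h
    refine ⟨fun j hj => ?_, by simpa using h 0 (by omega)⟩
    have := h (j + 1) (by omega)
    rw [show r + 1 + (j + 1) = r + (j + 1 + 1) by ring, show r + 1 + j = r + (j + 1) by ring,
      show r + 1 + (j + 2) = r + (j + 1 + 2) by ring]
    exact this
  · rintro ⟨h1, h2⟩ j hj
    rcases j with _ | j
    · simpa using h2
    · have := h1 j (by omega)
      rw [show r + 1 + (j + 1) = r + (j + 1 + 1) by ring, show r + 1 + j = r + (j + 1) by ring,
        show r + 1 + (j + 2) = r + (j + 1 + 2) by ring] at this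
      exact this

theorem XL_zero (E : (ℕ → ℕ) → Prop) (k n : ℕ) : cnt n (XL E 0 k) = cnt n (JL E 0 k) := by
  refine cnt_congr (fun w => ?_)
  unfold XL JL
  simp

theorem XL_one (E : (ℕ → ℕ) → Prop) {k n : ℕ} (hk : 1 ≤ k) (hn : 1 + k ≤ n) :
    cnt n (XL E 1 k) = cnt n (JL E 1 k) + cnt n (JL E 0 (k + 1)) := by
  refine cnt_add2 (fun w => ?_) (fun w => ?_)
  · have hne : vals w 0 ≠ vals w 1 := fun h => by
      have := vals_inj w (show 0 < n by omega) (show 1 < n by omega) h; omega
    unfold XL JL
    rw [dec_left hk]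
    have a1 := noDD_small (show 1 ≤ 2 by omega) (vals w)
    have a0 := noDD_small (show 0 ≤ 2 by omega) (vals w)
    simp only [a1, a0, true_and, Nat.sub_self, one_ne_zero, false_or, true_or, zero_add]
    have : vals w 0 < vals w 1 ∨ vals w 1 < vals w 0 := by omega
    tauto
  · unfold JL
    rw [dec_left hk]
    simp only [Nat.sub_self, one_ne_zero, false_or, zero_add]
    intro h1 h2
    omega

theorem XL_two (E : (ℕ → ℕ) → Prop) {p k n : ℕ} (hk : 1 ≤ k) (hn : p + 2 + k ≤ n) :
    cnt n (XL E (p + 2) k) =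
      cnt n (JL E (p + 2) k) + cnt n (JL E (p + 1) (k + 1)) + cnt n (JL E p (k + 2)) := by
  have key : ∀ w : Equiv.Perm (Fin n), vals w p ≠ vals w (p + 1) ∧
      vals w (p + 1) ≠ vals w (p + 2) ∧ (1 ≤ p → vals w (p - 1) ≠ vals w p) := fun w =>
    ⟨fun h => by have := vals_inj w (show p < n by omega) (show p + 1 < n by omega) h; omega,
     fun h => by have := vals_inj w (show p + 1 < n by omega) (show p + 2 < n by omega) h; omega,
     fun h1 h => by
       have := vals_inj w (show p - 1 < n by omega) (show p < n by omega) h; omega⟩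
  have hD1 : ∀ f : ℕ → ℕ, Dec (k + 1) (sh (p + 1) f) ↔
      f (p + 2) < f (p + 1) ∧ Dec k (sh (p + 2) f) := fun f => dec_left hk
  have hD2 : ∀ f : ℕ → ℕ, Dec (k + 2) (sh p f) ↔
      f (p + 1) < f p ∧ f (p + 2) < f (p + 1) ∧ Dec k (sh (p + 2) f) := fun f => by
    rw [show k + 2 = k + 1 + 1 from rfl, dec_left (by omega), hD1 f]
  -- relations between the `NoDD` conditions
  have hN1 : ∀ f : ℕ → ℕ, f p < f (p + 1) → (NoDD (p + 2) f ↔ NoDD (p + 1) f) := fun f h => by
    rcases p with _ | p
    · simp only [noDD_small (show 0 + 2 ≤ 2 by omega), noDD_small (show 0 + 1 ≤ 2 by omega)]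
    · rw [show p + 1 + 2 = p + 3 from rfl, noDD_succ]
      constructor
      · exact fun h' => h'.1
      · intro h'; exact ⟨h', fun h'' => by
          have h2 : f (p + 1) < f (p + 2) := h
          have := h''.2; omega⟩
  have hN2 : ∀ f : ℕ → ℕ, f (p + 1) < f p → (1 ≤ p → f (p - 1) ≠ f p) →
      (NoDD (p + 2) f ↔ NoDD p f ∧ (p = 0 ∨ f (p - 1) < f p)) := fun f h h1 => by
    rcases p with _ | p
    · simp [noDD_small (show 0 + 2 ≤ 2 by omega), noDD_small (show 0 ≤ 2 by omega)]
    · rw [show p + 1 + 2 = p + 3 from rfl, noDD_succ]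
      have h2 := h1 (by omega)
      simp only [Nat.add_sub_cancel] at h2 ⊢
      rcases p with _ | p
      · simp only [noDD_small (show 0 + 2 ≤ 2 by omega), noDD_small (show 0 + 1 ≤ 2 by omega),
          true_and]
        constructor
        · intro h3; right
          by_contra h4
          exact h3 ⟨by omega, by simpa using h⟩
        · rintro (h3 | h3)
          · omega
          · intro h4; have := h4.1; omega
      · rw [show p + 1 + 2 = p + 3 from rfl, noDD_succ]
        rw [show p + 1 + 1 = p + 2 from rfl] at h2 h ⊢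
        constructor
        · rintro ⟨⟨h3, h4⟩, h5⟩
          refine ⟨h3, Or.inr ?_⟩
          by_contra h6
          exact h5 ⟨by omega, h⟩
        · rintro ⟨h3, h4⟩
          have h4' : f (p + 1) < f (p + 2) := by
            rcases h4 with h4 | h4
            · omega
            · exact h4
          exact ⟨⟨h3, fun h5 => by have := h5.2; omega⟩, fun h5 => by
            have := h5.1
            omega⟩
  refine cnt_add3 (fun w => ?_) (fun w => ?_) (fun w => ?_) (fun w => ?_)
  · obtain ⟨k1, k2, k3⟩ := key w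
    unfold XL JL
    rw [hD1, hD2]
    simp only [Nat.add_sub_cancel, show p + 2 - 1 = p + 1 from rfl, show p + 2 ≠ 0 by omega,
      show p + 1 ≠ 0 by omega, false_or]
    rcases lt_or_gt_of_ne k2 with h | h
    · have h' : ¬ vals w (p + 2) < vals w (p + 1) := by omega
      tauto
    · have h' : ¬ vals w (p + 1) < vals w (p + 2) := by omega
      rcases lt_or_gt_of_ne k1 with g | g
      · have g' : ¬ vals w (p + 1) < vals w p := by omega
        have := hN1 (vals w) g
        tauto
      · have g' : ¬ vals w p < vals w (p + 1) := by omega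
        have := hN2 (vals w) g k3
        tauto
  · unfold JL
    rw [hD1]
    simp only [show p + 2 - 1 = p + 1 from rfl, show p + 2 ≠ 0 by omega, false_or]
    intro h1 h2; omega
  · unfold JL
    rw [hD2]
    simp only [show p + 2 - 1 = p + 1 from rfl, show p + 2 ≠ 0 by omega, false_or]
    intro h1 h2; omega
  · unfold JL
    rw [hD1, hD2]
    simp only [show p + 1 - 1 = p from rfl, show p + 1 ≠ 0 by omega, false_or]
    intro h1 h2; omega

theorem XR_zero (E : (ℕ → ℕ) → Prop) (p k n : ℕ) : cnt n (XR E p k 0) = cnt n (JR E p k 0) := by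
  refine cnt_congr (fun w => ?_)
  unfold XR JR
  simp

theorem XR_one (E : (ℕ → ℕ) → Prop) {p k n : ℕ} (hk : 1 ≤ k) (hn : p + k + 1 ≤ n) :
    cnt n (XR E p k 1) = cnt n (JR E p k 1) + cnt n (JR E p (k + 1) 0) := by
  refine cnt_add2 (fun w => ?_) (fun w => ?_)
  · have hne : vals w (p + k - 1) ≠ vals w (p + k) := fun h => by
      have := vals_inj w (show p + k - 1 < n by omega) (show p + k < n by omega) h; omega
    unfold XR JR
    rw [dec_right hk]
    have a1 := fun r => noDD_small (show 1 ≤ 2 by omega) (sh r (vals w))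
    have a0 := fun r => noDD_small (show 0 ≤ 2 by omega) (sh r (vals w))
    simp only [a1, a0, and_true, one_ne_zero, false_or, true_or]
    have : vals w (p + k - 1) < vals w (p + k) ∨ vals w (p + k) < vals w (p + k - 1) := by omega
    tauto
  · unfold JR
    rw [dec_right hk]
    simp only [one_ne_zero, false_or]
    intro h1 h2
    omega

theorem XR_two (E : (ℕ → ℕ) → Prop) {p k q n : ℕ} (hk : 1 ≤ k) (hn : p + k + (q + 2) ≤ n) :
    cnt n (XR E p k (q + 2)) =
      cnt n (JR E p k (q + 2)) + cnt n (JR E p (k + 1) (q + 1)) + cnt n (JR E p (k + 2) q) := by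
  obtain ⟨r, hr⟩ : ∃ r, r = p + k := ⟨_, rfl⟩
  have key : ∀ w : Equiv.Perm (Fin n), vals w (r - 1) ≠ vals w r ∧
      vals w r ≠ vals w (r + 1) ∧ (1 ≤ q → vals w (r + 1) ≠ vals w (r + 2)) := fun w =>
    ⟨fun h => by have := vals_inj w (show r - 1 < n by omega) (show r < n by omega) h; omega,
     fun h => by have := vals_inj w (show r < n by omega) (show r + 1 < n by omega) h; omega,
     fun h1 h => by
       have := vals_inj w (show r + 1 < n by omega) (show r + 2 < n by omega) h; omega⟩
  have hD1 : ∀ f : ℕ → ℕ, Dec (k + 1) (sh p f) ↔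
      f r < f (r - 1) ∧ Dec k (sh p f) := fun f => by rw [hr]; exact dec_right hk
  have hD2 : ∀ f : ℕ → ℕ, Dec (k + 2) (sh p f) ↔
      f (r + 1) < f r ∧ f r < f (r - 1) ∧ Dec k (sh p f) := fun f => by
    rw [show k + 2 = k + 1 + 1 from rfl, dec_right (by omega), hD1 f,
      show p + (k + 1) - 1 = r by omega, show p + (k + 1) = r + 1 by omega]
  have hN1 : ∀ f : ℕ → ℕ, f r < f (r + 1) →
      (NoDD (q + 2) (sh r f) ↔ NoDD (q + 1) (sh (r + 1) f)) := fun f h => by
    rcases q with _ | q
    · simp only [noDD_small (show 0 + 2 ≤ 2 by omega), noDD_small (show 0 + 1 ≤ 2 by omega)]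
    · rw [show q + 1 + 2 = q + 3 from rfl, noDD_left]
      constructor
      · exact fun h' => h'.1
      · intro h'; exact ⟨h', fun h'' => by have := h''.1; omega⟩
  have hN2 : ∀ f : ℕ → ℕ, f (r + 1) < f r → (1 ≤ q → f (r + 1) ≠ f (r + 2)) →
      (NoDD (q + 2) (sh r f) ↔ NoDD q (sh (r + 2) f) ∧ (q = 0 ∨ f (r + 1) < f (r + 2))) :=
    fun f h h1 => by
    rcases q with _ | q
    · simp [noDD_small (show 0 + 2 ≤ 2 by omega), noDD_small (show 0 ≤ 2 by omega)]
    · rw [show q + 1 + 2 = q + 3 from rfl, noDD_left]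
      have h2 := h1 (by omega)
      rcases q with _ | q
      · simp only [noDD_small (show 0 + 2 ≤ 2 by omega), noDD_small (show 0 + 1 ≤ 2 by omega),
          true_and]
        constructor
        · intro h3; right
          by_contra h4
          exact h3 ⟨h, by omega⟩
        · rintro (h3 | h3)
          · omega
          · intro h4; have := h4.2; omega
      · rw [show q + 1 + 2 = q + 3 from rfl, noDD_left]
        rw [show r + 1 + 1 = r + 2 from rfl, show r + 1 + 2 = r + 3 from rfl]
        constructor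
        · rintro ⟨⟨h3, h4⟩, h5⟩
          refine ⟨h3, Or.inr ?_⟩
          by_contra h6
          exact h5 ⟨h, by omega⟩
        · rintro ⟨h3, h4⟩
          have h4' : f (r + 1) < f (r + 2) := by
            rcases h4 with h4 | h4
            · omega
            · exact h4
          exact ⟨⟨h3, fun h5 => by have := h5.1; omega⟩, fun h5 => by
            have := h5.2
            omega⟩
  refine cnt_add3 (fun w => ?_) (fun w => ?_) (fun w => ?_) (fun w => ?_)
  · obtain ⟨k1, k2, k3⟩ := key w
    unfold XR JR
    rw [hD1, hD2]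
    simp only [show p + (k + 1) = r + 1 by omega, show p + (k + 2) = r + 2 by omega,
      show r + 2 - 1 = r + 1 from rfl, Nat.add_sub_cancel,
      show q + 2 ≠ 0 by omega, show q + 1 ≠ 0 by omega, false_or, ← hr]
    rcases lt_or_gt_of_ne k1 with h | h
    · have h' : ¬ vals w r < vals w (r - 1) := by omega
      tauto
    · have h' : ¬ vals w (r - 1) < vals w r := by omega
      rcases lt_or_gt_of_ne k2 with g | g
      · have g' : ¬ vals w (r + 1) < vals w r := by omega
        have := hN1 (vals w) g
        tauto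
      · have g' : ¬ vals w r < vals w (r + 1) := by omega
        have := hN2 (vals w) g k3
        tauto
  · unfold JR
    rw [hD1]
    simp only [show q + 2 ≠ 0 by omega, false_or, ← hr]
    intro h1 h2; omega
  · unfold JR
    rw [hD2]
    simp only [show q + 2 ≠ 0 by omega, false_or, ← hr]
    intro h1 h2; omega
  · unfold JR
    rw [hD1, hD2]
    simp only [show p + (k + 1) = r + 1 by omega, Nat.add_sub_cancel,
      show q + 1 ≠ 0 by omega, false_or]
    intro h1 h2; omega

end Pool.Agent.H43.DD
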