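import Pool.Agent.H43.DD.Table

/-!
The sign of the difference of consecutive double descent counts.
-/

set_option autoImplicit false

namespace Pool.Agent.H43.DD

open Finset

theorem main_error' {p q : ℕ} (hpq : p < q) :
    |rho ^ (p + q + 2) * Dr p q - k0 * ((-1 / 2) ^ p - (-1 / 2) ^ q)| ≤ 2000 * (1 / 4) ^ p := by
  refine (main_error (fun c => Ex_le q c) (by norm_num)).trans ?_
  have hB := BB_lt
  have hB0 := BB_pos
  have hC := CC_lt
  have hC0 := CC_pos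
  have hD := C1_lt
  have hD0 := C1_pos
  have p1 := Phi_one_lt
  have p2 := Phi_two_lt
  have p4 := Phi_four_lt
  have q1 := Phi_pos (x := 1) (by norm_num)
  have q2 := Phi_pos (x := 2) (by norm_num)
  have q4 := Phi_pos (x := 4) (by norm_num)
  have h1 : (1 / 4 : ℝ) ^ q ≤ (1 / 4) ^ p * (1 / 4) := by
    rw [← pow_succ]
    exact pow_le_pow_of_le_one (by norm_num) (by norm_num) hpq
  have h41 : Phi 4 * Phi 1 ≤ 25.867 * 1.9445 := mul_le_mul p4.le p1.le q1.le (by norm_num)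
  have h24 : Phi 2 * Phi 4 ≤ 4.2302 * 25.867 := mul_le_mul p2.le p4.le q4.le (by norm_num)
  have hx : (0 : ℝ) < (1 / 4) ^ p := by positivity
  have t1 : BB * (1 / 4) ^ p * 1.9 / 2 * (Phi 4 * Phi 1) ≤
      26.39 * (1 / 4) ^ p * 1.9 / 2 * (25.867 * 1.9445) := by
    apply mul_le_mul _ h41 (by positivity) (by positivity)
    have := mul_le_mul_of_nonneg_right hB.le hx.le
    linarith
  have t2 : (CC + C1) * (BB * (1 / 4) ^ q) / 2 * (Phi 2 * Phi 4) ≤
      (1.8306 + 0.1506) * (26.39 * ((1 / 4) ^ p * (1 / 4))) / 2 * (4.2302 * 25.867) := by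
    apply mul_le_mul _ h24 (by positivity) (by positivity)
    have a1 : BB * (1 / 4) ^ q ≤ 26.39 * ((1 / 4) ^ p * (1 / 4)) :=
      mul_le_mul hB.le h1 (by positivity) (by norm_num)
    have a2 : (CC + C1) * (BB * (1 / 4) ^ q) ≤
        (1.8306 + 0.1506) * (26.39 * ((1 / 4) ^ p * (1 / 4))) :=
      mul_le_mul (by linarith) a1 (by positivity) (by norm_num)
    linarith
  nlinarith

theorem pow_rho_ge (n : ℕ) : (1.2091 : ℝ) ^ n ≤ rho ^ n :=
  pow_le_pow_left₀ (by norm_num) rho_gt.le _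

theorem k0_lt : k0 < -0.1699 := by
  have h := main_error' (p := 20) (q := 21) (by norm_num)
  have h1 : rho ^ 43 * Dr 20 21 < -245 / 1000000000 := by
    have h2 := Dr_eq_Dq (p := 20) (q := 21) (by norm_num) (by norm_num)
    have h3 : ((Dq 20 21 : ℚ) : ℝ) * (12091 / 10000) ^ 43 < -245 / 1000000000 := by
      have := Dq_main
      have h4 : (((Dq 20 21 * (12091 / 10000) ^ 43 : ℚ)) : ℝ) < ((- 245 / 1000000000 : ℚ) : ℝ) :=
        by exact_mod_cast this
      push_cast at h4; exact h4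
    have h5 : ((Dq 20 21 : ℚ) : ℝ) < 0 := by
      by_contra h6
      push Not at h6
      have : 0 ≤ ((Dq 20 21 : ℚ) : ℝ) * (12091 / 10000) ^ 43 := by positivity
      linarith
    have h7 := pow_rho_ge 43
    rw [h2]
    have h8 : (1.2091 : ℝ) = 12091 / 10000 := by norm_num
    rw [h8] at h7
    nlinarith
  have h2 := (abs_le.1 h).1
  norm_num at h2 h1 ⊢
  linarith

theorem sign_large {p q : ℕ} (hp : 14 ≤ p) (hpq : p < q) : 0 < (-1) ^ (p + 1) * Dr p q := by
  have hr := rho_pos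
  have h := main_error' hpq
  have hk := k0_lt
  obtain ⟨d, rfl⟩ : ∃ d, q = p + (d + 1) := ⟨q - p - 1, by omega⟩
  have e1 : (-1 : ℝ) ^ (p + 1) * ((-1 / 2) ^ p - (-1 / 2) ^ (p + (d + 1))) =
      -((1 / 2) ^ p * (1 - (-1 / 2) ^ (d + 1))) := by
    rw [pow_add (-1 / 2 : ℝ) p, show (-1 / 2 : ℝ) ^ p = (-1) ^ p * (1 / 2) ^ p by
      rw [← mul_pow]; norm_num]
    have : (-1 : ℝ) ^ p * (-1) ^ p = 1 := by rw [← mul_pow]; norm_num
    rw [pow_succ]
    linear_combination (-(1 / 2 : ℝ) ^ p * (1 - (-1 / 2) ^ (d + 1))) * this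
  have e2 : (3 / 4 : ℝ) ≤ 1 - (-1 / 2) ^ (d + 1) := by
    rcases d with _ | d
    · norm_num
    · have a1 : |(-1 / 2 : ℝ) ^ (d + 1 + 1)| ≤ 1 / 4 := by
        rw [abs_pow, show |(-1 / 2 : ℝ)| = 1 / 2 by norm_num [abs_div]]
        calc (1 / 2 : ℝ) ^ (d + 1 + 1) ≤ (1 / 2) ^ 2 :=
              pow_le_pow_of_le_one (by norm_num) (by norm_num) (by omega)
          _ = 1 / 4 := by norm_num
      have := (abs_le.1 a1).2
      linarith
  have e3 : 2000 * (1 / 4 : ℝ) ^ p ≤ 0.1221 * (1 / 2) ^ p := by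
    have a1 : (1 / 2 : ℝ) ^ p ≤ (1 / 2) ^ 14 :=
      pow_le_pow_of_le_one (by norm_num) (by norm_num) hp
    have a2 : (1 / 4 : ℝ) ^ p = (1 / 2) ^ p * (1 / 2) ^ p := by rw [← mul_pow]; norm_num
    have a3 : (0 : ℝ) < (1 / 2) ^ p := by positivity
    rw [a2]
    have a4 : (2000 : ℝ) * (1 / 2) ^ 14 ≤ 0.1221 := by norm_num
    nlinarith
  set T := rho ^ (p + (p + (d + 1)) + 2) * Dr p (p + (d + 1)) with hT
  set K := k0 * ((-1 / 2) ^ p - (-1 / 2) ^ (p + (d + 1))) with hK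
  have h1 : |(-1 : ℝ) ^ (p + 1) * (T - K)| ≤ 2000 * (1 / 4) ^ p := by
    rw [abs_mul, abs_pow, abs_neg, abs_one, one_pow, one_mul]; exact h
  have h2 := (abs_le.1 h1).1
  have h3 : (-1 : ℝ) ^ (p + 1) * K = (-k0) * ((1 / 2) ^ p * (1 - (-1 / 2) ^ (d + 1))) := by
    rw [hK]
    linear_combination k0 * e1
  have hx : (0 : ℝ) < (1 / 2) ^ p := by positivity
  have h4 : 0.1274 * (1 / 2 : ℝ) ^ p ≤ (-k0) * ((1 / 2) ^ p * (1 - (-1 / 2) ^ (d + 1))) := by
    have b1 : (1 / 2 : ℝ) ^ p * (3 / 4) ≤ (1 / 2) ^ p * (1 - (-1 / 2) ^ (d + 1)) :=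
      mul_le_mul_of_nonneg_left e2 hx.le
    have b2 : 0.1699 * ((1 / 2 : ℝ) ^ p * (3 / 4)) ≤
        (-k0) * ((1 / 2) ^ p * (1 - (-1 / 2) ^ (d + 1))) :=
      mul_le_mul (by linarith) b1 (by positivity) (by linarith)
    refine le_trans ?_ b2
    nlinarith
  have h5 : 0 < (-1 : ℝ) ^ (p + 1) * T := by
    have : (-1 : ℝ) ^ (p + 1) * (T - K) = (-1 : ℝ) ^ (p + 1) * T - (-1 : ℝ) ^ (p + 1) * K := by ring
    rw [this, h3] at h2
    nlinarith
  have h6 : (-1 : ℝ) ^ (p + 1) * T = rho ^ (p + (p + (d + 1)) + 2) *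
      ((-1) ^ (p + 1) * Dr p (p + (d + 1))) := by rw [hT]; ring
  rw [h6] at h5
  exact (mul_pos_iff_of_pos_left (by positivity)).1 h5

theorem sign_small {p q : ℕ} (hp1 : 1 ≤ p) (hp : p < 14) (hpq : p < q) :
    0 < (-1) ^ (p + 1) * Dr p q := by
  have hr := rho_pos
  rcases Nat.lt_or_ge q 22 with hq | hq
  · rw [Dr_eq_Dq (by omega) hq]
    have := Dq_sign p hp q hq hpq hp1
    exact_mod_cast this
  · -- compare with `q' = 21`
    have hδ : |((-1 / 2 : ℝ)) ^ q - (-1 / 2) ^ 21| ≤ 0.00000072 := by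
      have a1 : |((-1 / 2 : ℝ)) ^ q| ≤ (1 / 2) ^ 22 := by
        rw [abs_pow, show |(-1 / 2 : ℝ)| = 1 / 2 by norm_num [abs_div]]
        exact pow_le_pow_of_le_one (by norm_num) (by norm_num) hq
      have a2 := abs_sub ((-1 / 2 : ℝ) ^ q) ((-1 / 2) ^ 21)
      have a3 : |((-1 / 2 : ℝ)) ^ 21| = (1 / 2) ^ 21 := by
        rw [abs_pow, show |(-1 / 2 : ℝ)| = 1 / 2 by norm_num [abs_div]]
      rw [a3] at a2
      norm_num at a1 a2 ⊢
      linarith
    have h := fixed_error (p := p) (q := q) (q' := 21) (fun c => Ex_le p c) (by norm_num)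
      (by norm_num) hδ
    have hB := BB_lt
    have hB0 := BB_pos
    have hD := C1_lt
    have hD0 := C1_pos
    have p1 := Phi_one_lt
    have p2 := Phi_two_lt
    have p4 := Phi_four_lt
    have q1 := Phi_pos (x := 1) (by norm_num)
    have q2 := Phi_pos (x := 2) (by norm_num)
    have q4 := Phi_pos (x := 4) (by norm_num)
    have h14 : Phi 1 * Phi 4 ≤ 1.9445 * 25.867 := mul_le_mul p1.le p4.le q4.le (by norm_num)
    have h12 : Phi 1 * Phi 2 ≤ 1.9445 * 4.2302 := mul_le_mul p1.le p2.le q2.le (by norm_num)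
    have hq4 : (1 / 4 : ℝ) ^ q ≤ (1 / 4) ^ 21 :=
      pow_le_pow_of_le_one (by norm_num) (by norm_num) (by omega)
    have t1 : 1.9 * (BB * (1 / 4) ^ q + BB * (1 / 4) ^ 21) / 2 * (Phi 1 * Phi 4) ≤
        1.9 * (26.39 * (1 / 4) ^ 21 + 26.39 * (1 / 4) ^ 21) / 2 * (1.9445 * 25.867) := by
      apply mul_le_mul _ h14 (by positivity) (by positivity)
      have a1 : BB * (1 / 4) ^ q ≤ 26.39 * (1 / 4) ^ 21 :=
        mul_le_mul hB.le hq4 (by positivity) (by norm_num)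
      have a2 : BB * (1 / 4) ^ 21 ≤ 26.39 * (1 / 4) ^ 21 :=
        mul_le_mul_of_nonneg_right hB.le (by positivity)
      linarith
    have t2 : 1.9 * (C1 * 0.00000072) / 2 * (Phi 1 * Phi 2) ≤
        1.9 * (0.1506 * 0.00000072) / 2 * (1.9445 * 4.2302) := by
      apply mul_le_mul _ h12 (by positivity) (by positivity)
      linarith
    have h' : |rho ^ (p + q + 2) * Dr p q - rho ^ (p + 21 + 2) * Dr p 21| ≤ 0.000001 := by
      refine (h.trans (add_le_add t1 t2)).trans ?_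
      norm_num
    -- the anchor
    have ha : 2 / 1000000 < (-1) ^ (p + 1) * (rho ^ (p + 21 + 2) * Dr p 21) := by
      have h2 := Dr_eq_Dq (p := p) (q := 21) (by omega) (by norm_num)
      have h3 : (2 / 1000000 : ℝ) < (-1) ^ (p + 1) * ((Dq p 21 : ℚ) : ℝ) *
          (12091 / 10000) ^ (p + 23) := by
        have := Dq_anchor p hp hp1
        have h4 : (((2 / 1000000 : ℚ)) : ℝ) <
            (((-1) ^ (p + 1) * Dq p 21 * (12091 / 10000) ^ (p + 23) : ℚ) : ℝ) := by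
          exact_mod_cast this
        push_cast at h4; exact h4
      have h5 : (0 : ℝ) ≤ (-1) ^ (p + 1) * ((Dq p 21 : ℚ) : ℝ) := by
        have h6 : (0 : ℝ) < (12091 / 10000) ^ (p + 23) := by positivity
        by_contra h7
        push Not at h7
        nlinarith
      have h7 := pow_rho_ge (p + 23)
      have h8 : (1.2091 : ℝ) = 12091 / 10000 := by norm_num
      rw [h8] at h7
      rw [h2, show p + 21 + 2 = p + 23 by ring]
      calc (2 / 1000000 : ℝ) < (-1) ^ (p + 1) * ((Dq p 21 : ℚ) : ℝ) *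
          (12091 / 10000) ^ (p + 23) := h3
        _ ≤ (-1) ^ (p + 1) * ((Dq p 21 : ℚ) : ℝ) * rho ^ (p + 23) :=
            mul_le_mul_of_nonneg_left h7 h5
        _ = _ := by ring
    have h1 : |(-1 : ℝ) ^ (p + 1) * (rho ^ (p + q + 2) * Dr p q -
        rho ^ (p + 21 + 2) * Dr p 21)| ≤ 0.000001 := by
      rw [abs_mul, abs_pow, abs_neg, abs_one, one_pow, one_mul]; exact h'
    have h2 := (abs_le.1 h1).1
    have h3 : 0 < rho ^ (p + q + 2) * ((-1 : ℝ) ^ (p + 1) * Dr p q) := by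
      norm_num at h2 ha ⊢
      linarith
    exact (mul_pos_iff_of_pos_left (by positivity)).1 h3

theorem sign_all {p q : ℕ} (hp1 : 1 ≤ p) (hpq : p < q) : 0 < (-1) ^ (p + 1) * Dr p q := by
  rcases Nat.lt_or_ge p 14 with h | h
  · exact sign_small hp1 h hpq
  · exact sign_large h hpq

end Pool.Agent.H43.DD
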