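import Mathlib

/-!
Counting permutations with pattern conditions on disjoint blocks of positions.
-/

set_option autoImplicit false

namespace Pool.Agent.H43.DD

open Finset

/-- One-line notation of a permutation of `Fin n`, as a function on `ℕ` (0 outside). -/
def vals {n : ℕ} (w : Equiv.Perm (Fin n)) (j : ℕ) : ℕ := if h : j < n then (w ⟨j, h⟩ : ℕ) else 0

/-- `P` depends only on the relative order of the first `m` values. -/
def Inv (m : ℕ) (P : (ℕ → ℕ) → Prop) : Prop :=
  ∀ f g : ℕ → ℕ, (∀ i < m, ∀ j < m, (f i < f j ↔ g i < g j)) → (P f ↔ P g)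

open Classical in
/-- The number of permutations of `Fin n` with property `P`, as a real number. -/
noncomputable def cnt (n : ℕ) (P : (ℕ → ℕ) → Prop) : ℝ :=
  ∑ w : Equiv.Perm (Fin n), if P (vals w) then 1 else 0

theorem vals_lt {n : ℕ} (w : Equiv.Perm (Fin n)) {j : ℕ} (h : j < n) :
    vals w j = (w ⟨j, h⟩ : ℕ) := by simp [vals, h]

theorem vals_inj {n : ℕ} (w : Equiv.Perm (Fin n)) {i j : ℕ} (hi : i < n) (hj : j < n)
    (h : vals w i = vals w j) : i = j := by
  rw [vals_lt w hi, vals_lt w hj] at h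
  have := w.injective (Fin.ext h)
  simpa using this

section glue

variable {p q : ℕ}

/-- The underlying function of a glued permutation. -/
noncomputable def gf (S : {S : Finset (Fin (p + q)) // S.card = p}) (u : Equiv.Perm (Fin p))
    (v : Equiv.Perm (Fin q)) : Fin (p + q) → Fin (p + q) :=
  Fin.addCases (fun i => S.1.orderEmbOfFin S.2 (u i))
    (fun j => (S.1)ᶜ.orderEmbOfFin (by rw [Finset.card_compl, S.2]; simp) (v j))

theorem gf_castAdd (S : {S : Finset (Fin (p + q)) // S.card = p}) (u : Equiv.Perm (Fin p))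
    (v : Equiv.Perm (Fin q)) (i : Fin p) :
    gf S u v (Fin.castAdd q i) = S.1.orderEmbOfFin S.2 (u i) := by
  simp [gf]

theorem gf_natAdd (S : {S : Finset (Fin (p + q)) // S.card = p}) (u : Equiv.Perm (Fin p))
    (v : Equiv.Perm (Fin q)) (j : Fin q) :
    gf S u v (Fin.natAdd p j) =
      (S.1)ᶜ.orderEmbOfFin (by rw [Finset.card_compl, S.2]; simp) (v j) := by
  simp [gf]

theorem gf_castAdd_mem (S : {S : Finset (Fin (p + q)) // S.card = p}) (u : Equiv.Perm (Fin p))
    (v : Equiv.Perm (Fin q)) (i : Fin p) : gf S u v (Fin.castAdd q i) ∈ S.1 := by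
  rw [gf_castAdd]; exact Finset.orderEmbOfFin_mem _ _ _

theorem gf_natAdd_mem (S : {S : Finset (Fin (p + q)) // S.card = p}) (u : Equiv.Perm (Fin p))
    (v : Equiv.Perm (Fin q)) (j : Fin q) : gf S u v (Fin.natAdd p j) ∉ S.1 := by
  rw [gf_natAdd]
  exact Finset.mem_compl.1 (Finset.orderEmbOfFin_mem (S.1)ᶜ
    (k := q) (by rw [Finset.card_compl, S.2]; simp) (v j))

theorem gf_injective (S : {S : Finset (Fin (p + q)) // S.card = p}) (u : Equiv.Perm (Fin p))
    (v : Equiv.Perm (Fin q)) : Function.Injective (gf S u v) := by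
  intro a b
  refine Fin.addCases (fun i => ?_) (fun i => ?_) a <;>
    refine Fin.addCases (fun j => ?_) (fun j => ?_) b <;> intro h
  · rw [gf_castAdd, gf_castAdd] at h
    have := (S.1.orderEmbOfFin S.2).injective h
    rw [u.injective this]
  · exact absurd (h ▸ gf_castAdd_mem S u v i) (gf_natAdd_mem S u v j)
  · exact absurd (h ▸ gf_castAdd_mem S u v j) (gf_natAdd_mem S u v i)
  · rw [gf_natAdd, gf_natAdd] at h
    have := (((S.1)ᶜ).orderEmbOfFin _).injective h
    rw [v.injective this]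

/-- The glued permutation. -/
noncomputable def glue (t : {S : Finset (Fin (p + q)) // S.card = p} ×
    Equiv.Perm (Fin p) × Equiv.Perm (Fin q)) : Equiv.Perm (Fin (p + q)) :=
  Equiv.ofBijective (gf t.1 t.2.1 t.2.2)
    (Finite.injective_iff_bijective.1 (gf_injective t.1 t.2.1 t.2.2))

theorem glue_apply (t : {S : Finset (Fin (p + q)) // S.card = p} ×
    Equiv.Perm (Fin p) × Equiv.Perm (Fin q)) (i : Fin (p + q)) :
    glue t i = gf t.1 t.2.1 t.2.2 i := rfl

theorem mem_iff_gf (S : {S : Finset (Fin (p + q)) // S.card = p}) (u : Equiv.Perm (Fin p))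
    (v : Equiv.Perm (Fin q)) (x : Fin (p + q)) :
    x ∈ S.1 ↔ ∃ i : Fin p, gf S u v (Fin.castAdd q i) = x := by
  constructor
  · intro hx
    have h1 : x ∈ Set.range (S.1.orderEmbOfFin S.2) := by
      rw [Finset.range_orderEmbOfFin]; exact hx
    obtain ⟨k, hk⟩ := h1
    refine ⟨u.symm k, ?_⟩
    rw [gf_castAdd, Equiv.apply_symm_apply, hk]
  · rintro ⟨i, rfl⟩
    exact gf_castAdd_mem S u v i

theorem glue_injective : Function.Injective (glue (p := p) (q := q)) := by
  rintro ⟨S, u, v⟩ ⟨S', u', v'⟩ h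
  have hf : ∀ i, gf S u v i = gf S' u' v' i := fun i => by
    have := congrArg (fun e : Equiv.Perm (Fin (p + q)) => e i) h
    simpa [glue_apply] using this
  have hS : S = S' := by
    apply Subtype.ext
    ext x
    rw [mem_iff_gf S u v, mem_iff_gf S' u' v']
    simp only [hf]
  subst hS
  have hu : u = u' := by
    ext i
    have := hf (Fin.castAdd q i)
    rw [gf_castAdd, gf_castAdd] at this
    rw [(S.1.orderEmbOfFin S.2).injective this]
  have hv : v = v' := by
    ext i
    have := hf (Fin.natAdd p i)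
    rw [gf_natAdd, gf_natAdd] at this
    rw [(((S.1)ᶜ).orderEmbOfFin _).injective this]
  rw [hu, hv]

theorem glue_bijective : Function.Bijective (glue (p := p) (q := q)) := by
  rw [Fintype.bijective_iff_injective_and_card]
  refine ⟨glue_injective, ?_⟩
  rw [Fintype.card_prod, Fintype.card_prod, Fintype.card_finset_len, Fintype.card_perm,
    Fintype.card_perm, Fintype.card_perm, Fintype.card_fin, Fintype.card_fin, Fintype.card_fin]
  have h1 := Nat.add_choose_mul_factorial_mul_factorial p q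
  have h2 : (p + q).choose q = (p + q).choose p := by
    rw [← Nat.choose_symm_add]
  rw [h2] at h1
  rw [← h1, mul_assoc]

theorem vals_glue_left (t : {S : Finset (Fin (p + q)) // S.card = p} ×
    Equiv.Perm (Fin p) × Equiv.Perm (Fin q)) {i j : ℕ} (hi : i < p) (hj : j < p) :
    (vals (glue t) i < vals (glue t) j ↔ vals t.2.1 i < vals t.2.1 j) := by
  rw [vals_lt _ (show i < p + q by omega), vals_lt _ (show j < p + q by omega), vals_lt _ hi,
    vals_lt _ hj, glue_apply, glue_apply]
  have h1 : (⟨i, by omega⟩ : Fin (p + q)) = Fin.castAdd q ⟨i, hi⟩ := rfl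
  have h2 : (⟨j, by omega⟩ : Fin (p + q)) = Fin.castAdd q ⟨j, hj⟩ := rfl
  rw [h1, h2, gf_castAdd, gf_castAdd]
  rw [← Fin.lt_def, ← Fin.lt_def]
  exact (t.1.1.orderEmbOfFin t.1.2).lt_iff_lt

theorem vals_glue_right (t : {S : Finset (Fin (p + q)) // S.card = p} ×
    Equiv.Perm (Fin p) × Equiv.Perm (Fin q)) {i j : ℕ} (hi : i < q) (hj : j < q) :
    (vals (glue t) (p + i) < vals (glue t) (p + j) ↔ vals t.2.2 i < vals t.2.2 j) := by
  rw [vals_lt _ (show p + i < p + q by omega), vals_lt _ (show p + j < p + q by omega),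
    vals_lt _ hi, vals_lt _ hj, glue_apply, glue_apply]
  have h1 : (⟨p + i, by omega⟩ : Fin (p + q)) = Fin.natAdd p ⟨i, hi⟩ := rfl
  have h2 : (⟨p + j, by omega⟩ : Fin (p + q)) = Fin.natAdd p ⟨j, hj⟩ := rfl
  rw [h1, h2, gf_natAdd, gf_natAdd]
  rw [← Fin.lt_def, ← Fin.lt_def]
  exact (((t.1.1)ᶜ).orderEmbOfFin _).lt_iff_lt

end glue

theorem cnt_split (p q : ℕ) (P R : (ℕ → ℕ) → Prop) (hP : Inv p P) (hR : Inv q R) :
    cnt (p + q) (fun f => P f ∧ R (fun j => f (p + j))) =
      ((p + q).choose p : ℝ) * cnt p P * cnt q R := by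
  classical
  unfold cnt
  rw [← (glue_bijective (p := p) (q := q)).sum_comp]
  refine (Finset.sum_congr rfl (fun t _ => ?_)).trans
    (?_ : (∑ t : {S : Finset (Fin (p + q)) // S.card = p} × Equiv.Perm (Fin p) × Equiv.Perm (Fin q),
      (if P (vals t.2.1) then (1 : ℝ) else 0) * (if R (vals t.2.2) then 1 else 0)) = _)
  · have e1 : P (vals (glue t)) ↔ P (vals t.2.1) :=
      hP _ _ (fun i hi j hj => vals_glue_left t hi hj)
    have e2 : R (fun j => vals (glue t) (p + j)) ↔ R (vals t.2.2) :=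
      hR _ _ (fun i hi j hj => vals_glue_right t hi hj)
    simp only [e1, e2]
    by_cases h1 : P (vals t.2.1) <;> by_cases h2 : R (vals t.2.2) <;> simp [h1, h2]
  rw [Fintype.sum_prod_type]
  have h2 : ∀ S : {S : Finset (Fin (p + q)) // S.card = p},
      (∑ y : Equiv.Perm (Fin p) × Equiv.Perm (Fin q),
        (if P (vals y.1) then (1 : ℝ) else 0) * (if R (vals y.2) then 1 else 0)) =
      (∑ u : Equiv.Perm (Fin p), if P (vals u) then (1 : ℝ) else 0) *
        (∑ v : Equiv.Perm (Fin q), if R (vals v) then (1 : ℝ) else 0) := by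
    intro S
    rw [Fintype.sum_prod_type, Finset.sum_mul_sum]
  rw [Finset.sum_congr rfl (fun S _ => h2 S), Finset.sum_const, Finset.card_univ,
    Fintype.card_finset_len, Fintype.card_fin, nsmul_eq_mul]
  ring

theorem cnt_congr {n : ℕ} {P Q : (ℕ → ℕ) → Prop}
    (h : ∀ w : Equiv.Perm (Fin n), P (vals w) ↔ Q (vals w)) : cnt n P = cnt n Q := by
  classical
  unfold cnt
  refine Finset.sum_congr rfl (fun w _ => ?_)
  simp only [h w]

end Pool.Agent.H43.DD
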