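import Pool.Agent.H43.DD.Kernel

/-!
Finite computations (checked by the kernel).
-/

set_option autoImplicit false

namespace Pool.Agent.H43.DD

open Finset

def alist : List ℕ := [1, 1, 2, 5, 17, 70, 349, 2017, 13358, 99377, 822041, 7477162, 74207209,
  797771521, 9236662346, 114579019469, 1516103040833, 21314681315998, 317288088082405,
  4985505271920097, 82459612672301846, 1432064398910663705]

def uq (a : ℕ) : ℤ := if a % 3 = 0 then 1 else if a % 3 = 1 then -1 else 0

def vq (c d : ℕ) : ℤ := uq (c + 2) * uq d - uq c * uq (d + 2)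

def eT (m : ℕ) : ℚ := (alist.getD m 0 : ℚ) / (m.factorial : ℚ)

def Dq (p q : ℕ) : ℚ := ∑ c ∈ range (p + 1), ∑ d ∈ range (q + 1),
  (vq c d : ℚ) * (eT (p - c) * eT (q - d) / ((c + d + 2).factorial : ℚ))

theorem eT_conv : ∀ m < 22, ∑ j ∈ range (m + 1), (uq j : ℚ) / (j.factorial : ℚ) * eT (m - j) =
    if m = 0 then 1 else 0 := by decide +kernel

set_option maxRecDepth 100000 in
theorem Dq_sign : ∀ p < 14, ∀ q < 22, p < q → 1 ≤ p → 0 < (-1) ^ (p + 1) * Dq p q := by
  decide +kernel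

set_option maxRecDepth 100000 in
theorem Dq_anchor : ∀ p < 14, 1 ≤ p →
    2 / 1000000 < (-1) ^ (p + 1) * Dq p 21 * (12091 / 10000) ^ (p + 23) := by decide +kernel

set_option maxRecDepth 100000 in
theorem Dq_main : Dq 20 21 * (12091 / 10000) ^ 43 < - 245 / 1000000000 := by decide +kernel

theorem uq_cast (a : ℕ) : ((uq a : ℚ) : ℝ) = uu a := by
  unfold uq uu
  split_ifs <;> simp

theorem vq_cast (c d : ℕ) : ((vq c d : ℚ) : ℝ) = vv c d := by
  unfold vq vv
  rw [← uq_cast, ← uq_cast, ← uq_cast, ← uq_cast]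
  push_cast; ring

theorem ee_eq_eT : ∀ m < 22, ee m = ((eT m : ℚ) : ℝ) := by
  intro m
  induction m using Nat.strong_induction_on with
  | _ m ih =>
    intro hm
    have h1 := ee_conv m
    have h2 := congrArg (fun t : ℚ => (t : ℝ)) (eT_conv m hm)
    push_cast at h2
    rw [Finset.sum_range_succ'] at h1 h2
    have h3 : ∑ k ∈ range m, uu (k + 1) / ((k + 1).factorial : ℝ) * ee (m - (k + 1)) =
        ∑ k ∈ range m, ((uq (k + 1) : ℤ) : ℝ) / ((k + 1).factorial : ℝ) *
          ((eT (m - (k + 1)) : ℚ) : ℝ) := by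
      refine Finset.sum_congr rfl (fun k hk => ?_)
      have hk' : k < m := by simpa using hk
      rw [ih (m - (k + 1)) (by omega) (by omega), ← uq_cast]
      push_cast; rfl
    rw [h3] at h1
    simp only [uu_zero, Nat.factorial_zero, Nat.cast_one, div_one, one_mul, Nat.sub_zero,
      show uq 0 = 1 from rfl, Int.cast_one] at h1 h2
    by_cases hm0 : m = 0
    · simp only [hm0, if_true, Rat.cast_one] at h1 h2 ⊢
      linarith
    · simp only [hm0, if_false, Rat.cast_zero] at h1 h2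
      linarith

theorem Dr_eq_Dq {p q : ℕ} (hp : p < 22) (hq : q < 22) : Dr p q = ((Dq p q : ℚ) : ℝ) := by
  unfold Dr Dq
  push_cast
  refine Finset.sum_congr rfl (fun c _ => Finset.sum_congr rfl (fun d _ => ?_))
  rw [ee_eq_eT (p - c) (by omega), ee_eq_eT (q - d) (by omega), ← vq_cast]
  push_cast; rfl

theorem exp_rho_lt : Real.exp rho < 3.351 := by
  have h1 : Real.exp rho ≤ Real.exp (1 + 0.2092) := Real.exp_le_exp.2 (by
    have := rho_lt; linarith)
  rw [Real.exp_add] at h1
  have h2 := Real.exp_one_lt_d9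
  have h3 := Real.exp_bound' (x := 0.2092) (by norm_num) (by norm_num) (n := 4) (by norm_num)
  have h4 : Real.exp (0.2092 : ℝ) < 1.2328 := by
    refine lt_of_le_of_lt h3 ?_
    norm_num [Finset.sum_range_succ, Nat.factorial]
  have h5 : 0 < Real.exp (0.2092 : ℝ) := Real.exp_pos _
  nlinarith [Real.exp_pos (1 : ℝ)]

theorem exp_two_rho_lt : Real.exp (2 * rho) < 11.2293 := by
  rw [two_mul, Real.exp_add]
  have := exp_rho_lt
  nlinarith [Real.exp_pos rho]

theorem exp_four_rho_lt : Real.exp (4 * rho) < 126.098 := by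
  rw [show 4 * rho = 2 * rho + 2 * rho by ring, Real.exp_add]
  have := exp_two_rho_lt
  nlinarith [Real.exp_pos (2 * rho)]

theorem CC_lt : CC < 1.8306 := by
  have h : CC * CC = Real.exp rho := by
    unfold CC; rw [← Real.exp_add]; ring_nf
  have h1 := exp_rho_lt
  by_contra h2
  push Not at h2
  nlinarith

theorem C1_lt : C1 < 0.1506 := by
  unfold C1
  have h1 : Real.exp (-rho) ≤ Real.exp (-1.2091) := Real.exp_le_exp.2 (by
    have := rho_gt; linarith)
  have h2 : (3.3205 : ℝ) ≤ Real.exp 1.2091 := by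
    have := Real.sum_le_exp_of_nonneg (x := 1.2091) (by norm_num) 5
    refine le_trans ?_ this
    norm_num [Finset.sum_range_succ, Nat.factorial]
  have h3 : Real.exp (-1.2091) * Real.exp 1.2091 = 1 := by
    rw [← Real.exp_add]; norm_num
  have h4 : 0 < Real.exp (-1.2091 : ℝ) := Real.exp_pos _
  nlinarith

theorem BB_lt : BB < 26.39 := by
  unfold BB
  have := exp_two_rho_lt
  linarith

theorem Phi_one_lt : Phi 1 < 1.9445 := by
  unfold Phi
  have h1 := rho_gt
  have h2 := exp_rho_lt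
  rw [one_mul, div_lt_iff₀ rho_pos]
  linarith

theorem Phi_two_lt : Phi 2 < 4.2302 := by
  unfold Phi
  have h1 := rho_gt
  have h2 := exp_two_rho_lt
  rw [div_lt_iff₀ (by linarith)]
  linarith

theorem Phi_four_lt : Phi 4 < 25.867 := by
  unfold Phi
  have h1 := rho_gt
  have h2 := exp_four_rho_lt
  rw [div_lt_iff₀ (by linarith)]
  linarith

theorem Phi_pos {x : ℝ} (hx : 0 < x) : 0 < Phi x := by
  have hr := rho_pos
  unfold Phi
  apply div_pos _ (by positivity)
  have : 1 < Real.exp (x * rho) := Real.one_lt_exp_iff.2 (by positivity)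
  linarith

theorem EE_nonneg (m : ℕ) : 0 ≤ EE m := by
  have := rho_pos; have := ee_nonneg m
  unfold EE; positivity

theorem EE_le (m : ℕ) : EE m ≤ 1.9 := by
  have hr := rho_pos
  have hr2 := rho_lt
  rcases Nat.lt_or_ge m 5 with h | h
  · unfold EE
    rw [ee_eq_eT m (by omega)]
    have hp : rho ^ (m + 1) ≤ 1.2092 ^ (m + 1) := pow_le_pow_left₀ hr.le hr2.le _
    have h0 : (0 : ℝ) ≤ ((eT m : ℚ) : ℝ) := by
      rw [← ee_eq_eT m (by omega)]; exact ee_nonneg m
    refine (mul_le_mul_of_nonneg_right hp h0).trans ?_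
    interval_cases m <;> norm_num [eT, alist, Nat.factorial]
  · have h1 := EE_bound m
    have h2 : (1 / 4 : ℝ) ^ m ≤ (1 / 4) ^ 5 := pow_le_pow_of_le_one (by norm_num) (by norm_num) h
    have h3 : |(-1 / 2 : ℝ) ^ m| ≤ (1 / 2) ^ 5 := by
      rw [abs_pow, show |(-1 / 2 : ℝ)| = 1 / 2 by norm_num [abs_div]]
      exact pow_le_pow_of_le_one (by norm_num) (by norm_num) h
    have h4 := (abs_le.1 h1).2
    have h5 := CC_lt
    have h6 := C1_lt
    have h7 := BB_lt
    have h8 : C1 * (-1 / 2) ^ m ≤ 0.1506 * (1 / 2) ^ 5 := by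
      calc C1 * (-1 / 2) ^ m ≤ C1 * |(-1 / 2) ^ m| :=
            mul_le_mul_of_nonneg_left (le_abs_self _) C1_pos.le
        _ ≤ 0.1506 * (1 / 2) ^ 5 := mul_le_mul h6.le h3 (abs_nonneg _) (by norm_num)
    have h9 : BB * (1 / 4) ^ m ≤ 26.39 * (1 / 4) ^ 5 :=
      mul_le_mul h7.le h2 (by positivity) (by norm_num)
    norm_num at h8 h9 h4 ⊢
    linarith

theorem Ex_le (p c : ℕ) : |Ex p c| ≤ 1.9 := by
  unfold Ex
  split_ifs
  · rw [abs_of_nonneg (EE_nonneg _)]; exact EE_le _
  · norm_num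

end Pool.Agent.H43.DD
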